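import Mathlib

/-!
# The real recursion (module X4 of the cone angle inequality, MP_984acc_gt)
-/

namespace Pool.Agent.Singer.ConeA

open Filter Topology

/-- linear growth of the rows -/
theorem row_bound (a : ℕ → ℝ) (j n₀ : ℕ) (hj : 1 ≤ j) (S : ℝ)
    (h2 : ∀ p q, n₀ ≤ p → n₀ ≤ q → Even (p + j + q) →
      2 * a (p + j + q) ≤ S + a (2 * p) + a (2 * q)) :
    ∃ D : ℝ, ∀ N, Even N → a N ≤ N * (S / (2 * j)) + D := by
  have hj0 : (0 : ℝ) < j := by exact_mod_cast hj
  obtain ⟨D, hD⟩ : ∃ D : ℝ, ∀ N, N ≤ 2 * n₀ + j + 2 → a N - N * (S / (2 * j)) ≤ D := by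
    have hb : BddAbove (Set.range fun i : Fin (2 * n₀ + j + 3) => a i - (i : ℕ) * (S / (2 * j))) :=
      (Set.finite_range _).bddAbove
    obtain ⟨D, hD⟩ := hb
    refine ⟨D, fun N hN => hD ⟨⟨N, by omega⟩, rfl⟩⟩
  refine ⟨D, ?_⟩
  have key : ∀ N, Even N → a N - N * (S / (2 * j)) ≤ D := by
    intro N
    induction N using Nat.strong_induction_on with
    | _ N ih =>
      intro hN
      by_cases hle : N ≤ 2 * n₀ + j + 2
      · exact hD N hle
      push Not at hle
      obtain ⟨p, q, hpq, hp, hq, hpq2⟩ : ∃ p q, p + j + q = N ∧ n₀ ≤ p ∧ n₀ ≤ q ∧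
          (p = q ∨ p + 1 = q) := by
        refine ⟨(N - j) / 2, N - j - (N - j) / 2, by omega, by omega, by omega, by omega⟩
      have h := h2 p q hp hq (by rw [hpq]; exact hN)
      rw [hpq] at h
      have hpN : 2 * p < N := by omega
      have ihp := ih (2 * p) hpN (even_two_mul p)
      have hNr : (N : ℝ) = p + j + q := by rw [← hpq]; push_cast; ring
      have hS : (N : ℝ) * (S / (2 * j)) * 2 = S + ((2 * p : ℕ) : ℝ) * (S / (2 * j)) +
          ((2 * q : ℕ) : ℝ) * (S / (2 * j)) := by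
        rw [hNr]; push_cast; field_simp; ring
      by_cases hqN : 2 * q < N
      · have ihq := ih (2 * q) hqN (even_two_mul q)
        linarith
      · have hqe : 2 * q = N := by omega
        rw [hqe] at h hS
        linarith
  intro N hN
  linarith [key N hN]

/-- **The recursion of the cone angle inequality.** -/
theorem cone_recursion (F a : ℕ → ℝ) (j n₀ : ℕ) (hj : 1 ≤ j) (β c : ℝ)
    (h1 : ∀ k, j < k → 2 * F k ≤ F j + F (2 * k - j))
    (h2 : ∀ p q, n₀ ≤ p → n₀ ≤ q → Even (p + j + q) →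
      2 * a (p + j + q) ≤ F j + a (2 * p) + a (2 * q) + β)
    (h3 : ∀ p q, n₀ ≤ p → n₀ ≤ q → F (p + q) ≤ a (2 * p) + a (2 * q) + c)
    (k : ℕ) (hk : j ≤ k) : (j : ℝ) * F k ≤ k * F j + (k - j) * β := by
  rcases hk.eq_or_lt with rfl | hlt
  · simp
  have hj0 : (0 : ℝ) < j := by exact_mod_cast hj
  obtain ⟨D, hD⟩ := row_bound a j n₀ hj (F j + β) (fun p q hp hq he => by
    linarith [h2 p q hp hq he])
  -- linear growth of `F`
  have hF : ∀ N, 2 * n₀ ≤ N → F N ≤ N * ((F j + β) / j) + (2 * D + c) := by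
    intro N hN
    have h := h3 (N / 2) (N - N / 2) (by omega) (by omega)
    rw [show N / 2 + (N - N / 2) = N by omega] at h
    have e1 := hD (2 * (N / 2)) (even_two_mul _)
    have e2 := hD (2 * (N - N / 2)) (even_two_mul _)
    have e3 : ((2 * (N / 2) : ℕ) : ℝ) * ((F j + β) / (2 * j)) +
        ((2 * (N - N / 2) : ℕ) : ℝ) * ((F j + β) / (2 * j)) = N * ((F j + β) / j) := by
      rw [← add_mul, ← Nat.cast_add, show 2 * (N / 2) + 2 * (N - N / 2) = 2 * N by omega]
      push_cast; field_simp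
    linarith
  -- iteration
  have hit : ∀ m : ℕ, F k ≤ (1 - (1 / 2 : ℝ) ^ m) * F j + (1 / 2 : ℝ) ^ m *
      F (2 ^ m * (k - j) + j) := by
    intro m
    induction m with
    | zero =>
      have : 2 ^ 0 * (k - j) + j = k := by omega
      rw [this]; simp
    | succ m ih =>
      have hpos : 0 < 2 ^ m * (k - j) := by
        have : 0 < k - j := by omega
        positivity
      have h := h1 (2 ^ m * (k - j) + j) (by omega)
      have e : 2 * (2 ^ m * (k - j) + j) - j = 2 ^ (m + 1) * (k - j) + j := by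
        rw [pow_succ, mul_comm (2 ^ m) 2, mul_assoc]; omega
      rw [e] at h
      have hp : (0 : ℝ) < (1 / 2 : ℝ) ^ m := by positivity
      rw [pow_succ]
      nlinarith [mul_le_mul_of_nonneg_left h hp.le]
  have hcast : ((k - j : ℕ) : ℝ) = (k : ℝ) - j := by
    rw [Nat.cast_sub hlt.le]
  -- the limit
  have hlim : Tendsto (fun m : ℕ => (1 - (1 / 2 : ℝ) ^ m) * F j +
      (((k : ℝ) - j) * ((F j + β) / j) + (1 / 2 : ℝ) ^ m * (j * ((F j + β) / j) + (2 * D + c))))
      atTop (𝓝 ((1 - 0) * F j + (((k : ℝ) - j) * ((F j + β) / j) +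
        0 * (j * ((F j + β) / j) + (2 * D + c))))) := by
    have h0 : Tendsto (fun m : ℕ => (1 / 2 : ℝ) ^ m) atTop (𝓝 0) :=
      tendsto_pow_atTop_nhds_zero_of_lt_one (by norm_num) (by norm_num)
    exact ((tendsto_const_nhds.sub h0).mul_const _).add
      (tendsto_const_nhds.add (h0.mul_const _))
  have hle : F k ≤ (1 - 0) * F j + (((k : ℝ) - j) * ((F j + β) / j) +
        0 * (j * ((F j + β) / j) + (2 * D + c))) := by
    refine ge_of_tendsto hlim ?_
    filter_upwards [eventually_ge_atTop (2 * n₀)] with m hm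
    have hbig : 2 * n₀ ≤ 2 ^ m * (k - j) + j := by
      have h1 : m < 2 ^ m := Nat.lt_two_pow_self
      have h2 : 1 ≤ k - j := by omega
      have h3 : 2 ^ m ≤ 2 ^ m * (k - j) := Nat.le_mul_of_pos_right _ h2
      omega
    have h := hF _ hbig
    have hi := hit m
    have hp : (0 : ℝ) < (1 / 2 : ℝ) ^ m := by positivity
    have hpp : (1 / 2 : ℝ) ^ m * 2 ^ m = 1 := by
      rw [← mul_pow]; norm_num
    have hmul := mul_le_mul_of_nonneg_left h hp.le
    have e : (1 / 2 : ℝ) ^ m * (((2 ^ m * (k - j) + j : ℕ) : ℝ) * ((F j + β) / j) + (2 * D + c)) =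
        ((k : ℝ) - j) * ((F j + β) / j) +
          (1 / 2 : ℝ) ^ m * (j * ((F j + β) / j) + (2 * D + c)) := by
      push_cast
      rw [hcast]
      linear_combination (((k : ℝ) - j) * ((F j + β) / j)) * hpp
    linarith
  have hfin : (j : ℝ) * F k ≤ j * ((1 - 0) * F j + (((k : ℝ) - j) * ((F j + β) / j) +
        0 * (j * ((F j + β) / j) + (2 * D + c)))) := mul_le_mul_of_nonneg_left hle hj0.le
  refine hfin.trans (le_of_eq ?_)
  field_simp
  ring

end Pool.Agent.Singer.ConeA
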