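import Pool.Agent.Singer.ConeA.Ring
import Pool.Agent.Singer.ConeA.Real

/-!
# Singer, cone angles: inequalities for rings

* `EndInj C p`: the two ends of the rows of length `p` generate their amalgamated product;
* `ring_two_le`: `2 b(Ring k) ≤ b(Ring p) + b(Ring q)` for `p + q = 2 k`;
* `ring_mv`: `b(Ring (p + q)) ≤ b(Row (2 p)) + b(Row (2 q)) + const`.
-/

set_option autoImplicit false
set_option linter.unusedSectionVars false
set_option linter.unusedVariables false

namespace Singer
namespace ConeA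

universe u

open Monoid

variable {A : Type u} [Group A] {C : Bool → Subgroup A}

/-- the Betti number in the degree before -/
noncomputable def bp (Γ : Type u) [Group Γ] : ℕ → ℝ
  | 0 => 0
  | i + 1 => bt Γ i

/-- the Mayer-Vietoris inequality in all degrees -/
theorem amal_mv' {K X Y Γ : Type u} [Group K] [Group X] [Group Y] [Group Γ] {φ : K →* X} {φ' : K →* Y} {j : X →* Γ}
    {j' : Y →* Γ} {c : K →* Γ} (h : Amal φ φ' j j' c) (hK : Nonempty (Res.{0} K)) (hX : Nonempty (Res.{0} X))
    (hY : Nonempty (Res.{0} Y)) (i : ℕ) : bt Γ i ≤ bp K i + bt X i + bt Y i := by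
  cases i with
  | zero =>
    have h1 := amal_mv_zero h hK hX hY
    show bt Γ 0 ≤ 0 + bt X 0 + bt Y 0
    linarith
  | succ i => exact amal_mv h hK hX hY i

/-- the ends of the rows of length `p` generate their amalgamated product -/
def EndInj (C : Bool → Subgroup A) (p : ℕ) : Prop :=
  ∀ (m : ℤ) (T : Type u) [Group T] (t : ℤ → A →* T), IsRow C m p t → ∀ (E E' : Subgroup A), E = fc C (m - 1) →
    E' = fc C (m + p - 1) → ∀ (e : co C ≤ E) (e' : co C ≤ E') (hc : ∀ c ∈ co C, t m c = t (m + p - 1) c),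
      Function.Injective (bd e e' (t m) (t (m + p - 1)) hc)

theorem endInj_of_two_le {p : ℕ} (hp : 2 ≤ p) : EndInj C p := by
  intro m T _ t h E E' hE hE' e e' hc
  subst hE hE'
  exact h.bd_inj hp

/-- the homomorphism from the amalgamated product of the two faces to `A` -/
noncomputable def edge (C : Bool → Subgroup A) : PO (Subgroup.inclusion (inf_le_left : C true ⊓ C false ≤ C true))
    (Subgroup.inclusion (inf_le_right : C true ⊓ C false ≤ C false)) →* A :=
  poLift (C true).subtype (C false).subtype rfl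

lemma edge_poL (c : C true) : edge C (poL _ _ c) = c := poLift_poL _ _ _ _

lemma edge_poR (c : C false) : edge C (poR _ _ c) = c := poLift_poR _ _ _ _

/-- exchanging the two factors -/
lemma bd_swap {E E' : Subgroup A} (e : co C ≤ E) (e' : co C ≤ E') {T : Type u} [Group T] {f f' : A →* T}
    (h : ∀ c ∈ co C, f c = f' c) (hi : Function.Injective (bd e e' f f' h)) :
    Function.Injective (bd e' e f' f fun c hc => (h c hc).symm) := by
  let F : Bd C e' e →* Bd C e e' := poLift (poR _ _) (poL _ _) po_comm.symm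
  let F' : Bd C e e' →* Bd C e' e := poLift (poR _ _) (poL _ _) po_comm.symm
  have h1 : F'.comp F = MonoidHom.id _ := by
    refine hom_ext_of_gen' (j := poL _ _) (j' := poR _ _) isPush_po.gen (fun c => ?_) fun c => ?_
    · show F' (F (poL _ _ c)) = poL _ _ c
      have h2 : F (poL _ _ c) = poR _ _ c := poLift_poL _ _ _ _
      have h3 : F' (poR _ _ c) = poL _ _ c := poLift_poR _ _ _ _
      rw [h2, h3]
    · show F' (F (poR _ _ c)) = poR _ _ c
      have h2 : F (poR _ _ c) = poL _ _ c := poLift_poR _ _ _ _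
      have h3 : F' (poL _ _ c) = poR _ _ c := poLift_poL _ _ _ _
      rw [h2, h3]
  have h4 : bd e' e f' f (fun c hc => (h c hc).symm) = (bd e e' f f' h).comp F := by
    refine hom_ext_of_gen' (j := poL _ _) (j' := poR _ _) isPush_po.gen (fun c => ?_) fun c => ?_
    · have h2 : F (poL _ _ c) = poR _ _ c := poLift_poL _ _ _ _
      show _ = bd e e' f f' h (F (poL _ _ c))
      rw [h2, bd_poR, bd_poL]
    · have h2 : F (poR _ _ c) = poL _ _ c := poLift_poR _ _ _ _
      show _ = bd e e' f f' h (F (poR _ _ c))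
      rw [h2, bd_poL, bd_poR]
  have h5 : Function.Injective F := by
    intro a b hab
    have h6 := congrArg F' hab
    have h7 := DFunLike.congr_fun h1 a
    have h8 := DFunLike.congr_fun h1 b
    exact h7.symm.trans (h6.trans h8)
  rw [h4]
  exact hi.comp h5

theorem endInj_one (h : Function.Injective (edge C)) : EndInj C 1 := by
  intro m T _ t ht E E' hE hE' e e' hc
  have h0 : Function.Injective (t m) := ht.inj le_rfl le_rfl (by push_cast; omega)
  have h1 : m + ((1 : ℕ) : ℤ) - 1 = m := by push_cast; ring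
  have hcc : ∀ c ∈ co C, t m c = t m c := fun _ _ => rfl
  have key : Function.Injective (bd e e' (t m) (t m) hcc) := by
    have h2 : ∀ (e : co C ≤ C true) (e' : co C ≤ C false), Function.Injective (bd e e' (t m) (t m) hcc) := by
      intro e e'
      have h3 : bd e e' (t m) (t m) hcc = (t m).comp (edge C) := by
        refine hom_ext_of_gen' (j := poL _ _) (j' := poR _ _) isPush_po.gen (fun c => ?_) fun c => ?_
        · rw [bd_poL]
          exact congrArg (t m) (edge_poL c).symm
        · rw [bd_poR]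
          exact congrArg (t m) (edge_poR c).symm
      rw [h3]
      exact h0.comp h
    rw [h1] at hE'
    by_cases hm : Even m
    · have hE1 : E' = C true := by
        rw [hE']
        exact congrArg C (decide_eq_true hm)
      have hE2 : E = C false := by
        rw [hE]
        exact congrArg C (decide_eq_false (by rw [Int.even_sub_one]; simpa using hm))
      subst hE1 hE2
      exact bd_swap e' e hcc (h2 e' e)
    · have hE1 : E' = C false := by
        rw [hE']
        exact congrArg C (decide_eq_false hm)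
      have hE2 : E = C true := by
        rw [hE]
        exact congrArg C (decide_eq_true (by rw [Int.even_sub_one]; exact hm))
      subst hE1 hE2
      exact h2 e e'
  have h4 : ∀ (n : ℤ) (hn : n = m) (hcn : ∀ c ∈ co C, t m c = t n c),
      Function.Injective (bd e e' (t m) (t n) hcn) := by
    intro n hn hcn
    subst hn
    exact key
  exact h4 _ h1 hc

section res
variable (hA : Nonempty (Res.{0} A)) (hC : ∀ b, Nonempty (Res.{0} (C b))) (hB : Nonempty (Res.{0} (co C)))
include hA hC hB

lemma res_fc (i : ℤ) : Nonempty (Res.{0} (fc C i)) := hC _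

lemma res_bd {E E' : Subgroup A} {i i' : ℤ} (hE : E = fc C i) (hE' : E' = fc C i') (e : co C ≤ E) (e' : co C ≤ E') :
    Nonempty (Res.{0} (Bd C e e')) := by
  subst hE hE'
  exact amal_res (amal_po (Subgroup.inclusion_injective _) (Subgroup.inclusion_injective _)) hB (hC _) (hC _)

lemma res_row {m : ℤ} {p : ℕ} (hp : 1 ≤ p) : Nonempty (Res.{0} (Row C m p)) :=
  IsRow.res hA hC hp m _ _ (isRow_row hp)

/-- the gluing inequality for rings -/
theorem ring_two_le {k p q : ℕ} (hp : 1 ≤ p) (hq : 1 ≤ q) (hpq : p + q = 2 * k) (ip : EndInj C p) (iq : EndInj C q)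
    (i : ℕ) : 2 * bt (Ring C k) i ≤ bt (Ring C p) i + bt (Ring C q) i := by
  have hT := isRow_row (C := C) (m := 0) hp
  have hT' := isRow_row (C := C) (m := 0) hq
  have hc : ∀ c ∈ co C, rof C 0 p 0 c = rof C 0 p (0 + p - 1) c := fun c hc =>
    hT.co_eq le_rfl (by omega) (by omega) (by omega) hc
  have hc' : ∀ c ∈ co C, rof C 0 q 0 c = rof C 0 q (0 + q - 1) c := fun c hc =>
    hT'.co_eq le_rfl (by omega) (by omega) (by omega) hc
  have hE' : fc C (0 + p - 1) = fc C (0 + q - 1) := fc_par (by
    have : 0 + (p : ℤ) - 1 + (0 + q - 1) = 2 * (k - 1) := by omega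
    rw [this]
    exact even_two_mul _)
  obtain ⟨j, j', hP⟩ := ring_push hp hq hpq hT hT' (isRing_ring (by omega) 0) rfl rfl (co_le_fc C (0 - 1))
    (co_le_fc C (0 + p - 1)) hc hc'
  obtain ⟨j1, j1', hP1⟩ := ring_push hp hp (two_mul p).symm hT hT (isRing_ring (by omega) 0) rfl rfl
    (co_le_fc C (0 - 1)) (co_le_fc C (0 + p - 1)) hc hc
  obtain ⟨j2, j2', hP2⟩ := ring_push hq hq (two_mul q).symm hT' hT' (isRing_ring (by omega) 0) rfl hE'
    (co_le_fc C (0 - 1)) (co_le_fc C (0 + p - 1)) hc' hc'
  have i1 := ip 0 _ _ hT _ _ rfl rfl (co_le_fc C (0 - 1)) (co_le_fc C (0 + p - 1)) hc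
  have i2 := iq 0 _ _ hT' _ _ rfl hE' (co_le_fc C (0 - 1)) (co_le_fc C (0 + p - 1)) hc'
  exact amal_two_le (hP.amal i1 i2) (hP1.amal i1 i1) (hP2.amal i2 i2) (res_bd hA hC hB rfl rfl _ _)
    (res_row hA hC hB hp) (res_row hA hC hB hq) i

/-- the constant in the Mayer-Vietoris inequality -/
noncomputable def cst (C : Bool → Subgroup A) (i : ℕ) : ℝ := bp (Bd C (co_le_fc C (0 - 1)) (co_le_fc C (0 - 1))) i

/-- the Mayer-Vietoris inequality for rings -/
theorem ring_mv {p q : ℕ} (hp : 1 ≤ p) (hq : 1 ≤ q) (i : ℕ) :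
    bt (Ring C (p + q)) i ≤ bt (Row C 0 (2 * p)) i + bt (Row C 0 (2 * q)) i + cst C i := by
  have hp2 : 1 ≤ 2 * p := by omega
  have hq2 : 1 ≤ 2 * q := by omega
  have hT := isRow_row (C := C) (m := 0) hp2
  have hT' := isRow_row (C := C) (m := 0) hq2
  have hc : ∀ c ∈ co C, rof C 0 (2 * p) 0 c = rof C 0 (2 * p) (0 + (2 * p : ℕ) - 1) c := fun c hc =>
    hT.co_eq le_rfl (by omega) (by omega) (by omega) hc
  have hc' : ∀ c ∈ co C, rof C 0 (2 * q) 0 c = rof C 0 (2 * q) (0 + (2 * q : ℕ) - 1) c := fun c hc =>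
    hT'.co_eq le_rfl (by omega) (by omega) (by omega) hc
  have hE : ∀ n : ℕ, fc C (0 - 1) = fc C (0 + (2 * n : ℕ) - 1) := fun n => fc_par (by
    have : 0 - 1 + (0 + ((2 * n : ℕ) : ℤ) - 1) = 2 * (n - 1) := by push_cast; ring
    rw [this]
    exact even_two_mul _)
  obtain ⟨j, j', hP⟩ := ring_push (k := p + q) hp2 hq2 (by omega) hT hT' (isRing_ring (by omega) 0) rfl (hE p)
    (co_le_fc C (0 - 1)) (co_le_fc C (0 - 1)) hc hc'
  have i1 := endInj_of_two_le (C := C) (p := 2 * p) (by omega) 0 _ _ hT _ _ rfl (hE p) (co_le_fc C (0 - 1))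
    (co_le_fc C (0 - 1)) hc
  have i2 := endInj_of_two_le (C := C) (p := 2 * q) (by omega) 0 _ _ hT' _ _ rfl (hE q) (co_le_fc C (0 - 1))
    (co_le_fc C (0 - 1)) hc'
  have h1 := amal_mv' (hP.amal i1 i2) (res_bd hA hC hB rfl rfl _ _) (res_row hA hC hB hp2) (res_row hA hC hB hq2) i
  show _ ≤ _ + _ + bp _ i
  linarith

end res

end ConeA
end Singer
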