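import Mathlib

/-!
# Injectivity of sub-amalgams (module X2 of the cone angle inequality, MP_984acc_gt)

If `X i ≤ P i ≥ C` and `X i ∩ C = B` then the map from the amalgam of the `X i` over `B` to the
amalgam of the `P i` over `C` is injective (normal forms go to normal forms).
-/

namespace Pool.Agent.Singer.ConeA

open Monoid Monoid.CoprodI Monoid.PushoutI Function

variable {ι : Type*} {G : ι → Type*} {K : ι → Type*} {H : Type*} {L : Type*}
variable [∀ i, Group (G i)] [∀ i, Group (K i)] [Group H] [Group L]

/-- image of a word under injective maps of the letters -/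
def mapWord (f : ∀ i, G i →* K i) (hf : ∀ i, Injective (f i)) (w : Word G) : Word K where
  toList := w.toList.map (fun p => ⟨p.1, f p.1 p.2⟩)
  ne_one := by
    intro l hl
    rw [List.mem_map] at hl
    obtain ⟨p, hp, rfl⟩ := hl
    intro h
    exact w.ne_one p hp (hf p.1 (by simpa using h))
  chain_ne := by
    have h := w.chain_ne
    rw [List.isChain_map]
    exact h

/-- letters of a normal word are not in the base group -/
theorem letter_not_mem {φ : ∀ i, H →* G i} (d : NormalWord.Transversal φ) (w : NormalWord d) :
    Reduced φ w.toWord := by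
  intro g hg hr
  have h1 : g.2 ∈ d.set g.1 := w.normalized g.1 g.2 (by simpa using hg)
  have h2 : g.2 ≠ 1 := w.ne_one g hg
  have hc := d.compl g.1
  have := hc.existsUnique g.2
  obtain ⟨x, -, hx⟩ := this
  have e1 := hx (⟨⟨g.2, hr⟩, ⟨1, d.one_mem g.1⟩⟩ : _ × _) (by simp)
  have e2 := hx (⟨⟨1, one_mem _⟩, ⟨g.2, h1⟩⟩ : _ × _) (by simp)
  have e3 := e1.trans e2.symm
  have e4 := congrArg (fun y => (y.1 : G g.1)) e3
  exact h2 (by simpa using e4)

/-- **Injectivity lemma for sub-amalgams**, general form. -/
theorem map_injective (φ : ∀ i, H →* G i) (ψ : ∀ i, L →* K i) (f : ∀ i, G i →* K i)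
    (β : H →* L) (hφ : ∀ i, Injective (φ i)) (hψ : ∀ i, Injective (ψ i))
    (hf : ∀ i, Injective (f i)) (hβ : Injective β)
    (hr : ∀ i g l, f i g = ψ i l → ∃ h, φ i h = g)
    (F : PushoutI φ →* PushoutI ψ) (hF : ∀ i g, F (of i g) = of i (f i g))
    (hFb : ∀ h, F (base φ h) = base ψ (β h)) : Injective F := by
  classical
  rw [injective_iff_map_eq_one]
  intro a ha
  obtain ⟨d⟩ := NormalWord.transversal_nonempty φ hφ
  obtain ⟨w, rfl⟩ : ∃ w : NormalWord d, w.prod = a := by
    obtain ⟨w, hw⟩ := (NormalWord.equiv (d := d)).symm.surjective a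
    exact ⟨w, hw⟩
  have hF2 : ∀ u : Word G, F (ofCoprodI u.prod) = ofCoprodI (mapWord f hf u).prod := by
    intro u
    simp only [Word.prod, mapWord, List.map_map, map_list_prod]
    congr 1
    apply List.map_congr_left
    intro p _
    simp [hF]
  have hred : Reduced ψ (mapWord f hf w.toWord) := by
    intro g hg hgr
    simp only [mapWord, List.mem_map] at hg
    obtain ⟨p, hp, rfl⟩ := hg
    obtain ⟨l, hl⟩ := hgr
    obtain ⟨h, hh⟩ := hr p.1 p.2 l hl.symm
    exact letter_not_mem d w p hp ⟨h, hh⟩
  have h1 : base ψ (β w.head) * ofCoprodI (mapWord f hf w.toWord).prod = 1 := by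
    rw [← hFb, ← hF2, ← map_mul]
    exact ha
  have h2 : ofCoprodI (mapWord f hf w.toWord).prod ∈ (base ψ).range := by
    refine ⟨(β w.head)⁻¹, ?_⟩
    rw [map_inv]
    exact (eq_inv_of_mul_eq_one_right h1).symm
  have h3 := hred.eq_empty_of_mem_range hψ h2
  have h4 : w.toWord = .empty := by
    apply Word.ext
    have := congrArg Word.toList h3
    simpa [mapWord, Word.empty] using this
  have h5 : w.head = 1 := by
    rw [h3] at h1
    simp only [Word.prod_empty, map_one, mul_one] at h1
    rw [← map_one (base ψ)] at h1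
    have := base_injective hψ h1
    exact hβ (by simpa using this)
  rw [NormalWord.prod, h4, h5]
  simp

/-! ### Two factors, through universal properties -/

universe u

/-- the family with members `X` (at `true`) and `Y` (at `false`) -/
def Fam (X Y : Type u) : Bool → Type u
  | true => X
  | false => Y

instance (X Y : Type u) [Group X] [Group Y] : ∀ b, Group (Fam X Y b)
  | true => inferInstanceAs (Group X)
  | false => inferInstanceAs (Group Y)

/-- homomorphisms into the members of the family -/
def famHom {C X Y : Type u} [Group C] [Group X] [Group Y] (φ : C →* X) (ψ : C →* Y) :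
    ∀ b, C →* Fam X Y b
  | true => φ
  | false => ψ

/-- homomorphisms out of the members of the family -/
def homFam {K : Type*} [Group K] {X Y : Type u} [Group X] [Group Y] (φ : X →* K) (ψ : Y →* K) :
    ∀ b, Fam X Y b →* K
  | true => φ
  | false => ψ

/-- homomorphisms between families -/
def famMap {X Y P Q : Type u} [Group X] [Group Y] [Group P] [Group Q] (φ : X →* P) (ψ : Y →* Q) :
    ∀ b, Fam X Y b →* Fam P Q b
  | true => φ
  | false => ψ

/-- **Injectivity lemma for sub-amalgams**: `X, Y ≤ P, Q`, `X ∩ C = B = Y ∩ C`; the group `T` is only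
assumed to be generated by the images of `X` and `Y`, and `S` to have the (existence half of the)
universal property of `P *_C Q`. Then `T → S` is injective, and `T` is the amalgam `X *_B Y`. -/
theorem push_injective {B X Y C P Q T S : Type u} [Group B] [Group X] [Group Y] [Group C] [Group P]
    [Group Q] [Group T] [Group S] (bx : B →* X) (bY : B →* Y) (cp : C →* P) (cq : C →* Q)
    (bc : B →* C) (xp : X →* P) (yq : Y →* Q) (hbx : Injective bx) (hbY : Injective bY)
    (hcp : Injective cp) (hcq : Injective cq) (hbc : Injective bc) (hxp : Injective xp)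
    (hyq : Injective yq) (hX : ∀ x c, xp x = cp c → ∃ b, bx b = x)
    (hY : ∀ y c, yq y = cq c → ∃ b, bY b = y)
    (ex : xp.comp bx = cp.comp bc)
    (tx : X →* T) (ty : Y →* T) (et : tx.comp bx = ty.comp bY)
    (genT : Subgroup.closure ((tx.range : Set T) ∪ ty.range) = ⊤)
    (sp : P →* S) (sq : Q →* S)
    (liftS : ∀ (K : Type u) [Group K] (f : P →* K) (g : Q →* K), f.comp cp = g.comp cq →
      ∃ h : S →* K, h.comp sp = f ∧ h.comp sq = g)
    (F : T →* S) (hF1 : F.comp tx = sp.comp xp) (hF2 : F.comp ty = sq.comp yq) :
    Injective F ∧ (∀ (K : Type u) [Group K] (f : X →* K) (g : Y →* K), f.comp bx = g.comp bY →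
      ∃ h : T →* K, h.comp tx = f ∧ h.comp ty = g) := by
  let φ := famHom bx bY
  let ψ := famHom cp cq
  let π : PushoutI φ →* T := PushoutI.lift (homFam tx ty) (tx.comp bx) (by
    intro b
    cases b
    · exact et.symm
    · rfl)
  obtain ⟨θ, hθ1, hθ2⟩ := liftS (PushoutI ψ) (of (φ := ψ) true) (of (φ := ψ) false) (by
    have h1 := of_comp_eq_base (φ := ψ) true
    have h2 := of_comp_eq_base (φ := ψ) false
    exact h1.trans h2.symm)
  have hinj : Injective (θ.comp (F.comp π)) := by
    refine map_injective φ ψ (famMap xp yq) bc ?_ ?_ ?_ hbc ?_ (θ.comp (F.comp π)) ?_ ?_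
    · intro b; cases b
      · exact hbY
      · exact hbx
    · intro b; cases b
      · exact hcq
      · exact hcp
    · intro b; cases b
      · exact hyq
      · exact hxp
    · intro b; cases b
      · exact hY
      · exact hX
    · intro b; cases b
      · intro g
        have h1 : π (of (φ := φ) false g) = ty g := PushoutI.lift_of ..
        have h2 : F (ty g) = sq (yq g) := DFunLike.congr_fun hF2 g
        have h3 : θ (sq (yq g)) = of (φ := ψ) false (yq g) := DFunLike.congr_fun hθ2 (yq g)
        exact ((congrArg θ (congrArg F h1)).trans (congrArg θ h2)).trans h3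
      · intro g
        have h1 : π (of (φ := φ) true g) = tx g := PushoutI.lift_of ..
        have h2 : F (tx g) = sp (xp g) := DFunLike.congr_fun hF1 g
        have h3 : θ (sp (xp g)) = of (φ := ψ) true (xp g) := DFunLike.congr_fun hθ1 (xp g)
        exact ((congrArg θ (congrArg F h1)).trans (congrArg θ h2)).trans h3
    · intro b
      have h0 : π (base φ b) = tx (bx b) := PushoutI.lift_base ..
      have h2 : F (tx (bx b)) = sp (xp (bx b)) := DFunLike.congr_fun hF1 (bx b)
      have h3 : θ (sp (xp (bx b))) = of (φ := ψ) true (xp (bx b)) :=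
        DFunLike.congr_fun hθ1 (xp (bx b))
      have h4 : xp (bx b) = cp (bc b) := DFunLike.congr_fun ex b
      have h5 : of (φ := ψ) true (cp (bc b)) = base ψ (bc b) := of_apply_eq_base ψ true (bc b)
      refine ((congrArg θ (congrArg F h0)).trans (congrArg θ h2)).trans (h3.trans ?_)
      rw [h4]
      exact h5
  have hπ : Injective π := by
    intro a b hab
    exact hinj (congrArg θ (congrArg F hab))
  have hπs : Function.Surjective π := by
    rw [← MonoidHom.range_eq_top, eq_top_iff, ← genT, Subgroup.closure_le]
    rintro t (⟨x, rfl⟩ | ⟨y, rfl⟩)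
    · exact ⟨of (φ := φ) true x, PushoutI.lift_of ..⟩
    · exact ⟨of (φ := φ) false y, PushoutI.lift_of ..⟩
  refine ⟨?_, ?_⟩
  · intro a b hab
    obtain ⟨a', rfl⟩ := hπs a
    obtain ⟨b', rfl⟩ := hπs b
    exact congrArg π (hinj (congrArg θ hab))
  · intro K _ f g hfg
    let e : PushoutI φ ≃* T := MulEquiv.ofBijective π ⟨hπ, hπs⟩
    let l : PushoutI φ →* K := PushoutI.lift (homFam f g) (f.comp bx) (by
      intro b
      cases b
      · exact hfg.symm
      · rfl)
    refine ⟨l.comp e.symm.toMonoidHom, ?_, ?_⟩
    · ext x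
      have h1 : e.symm (tx x) = of (φ := φ) true x := by
        rw [MulEquiv.symm_apply_eq]
        have h3 : π (of (φ := φ) true x) = tx x := PushoutI.lift_of ..
        exact h3.symm
      have h2 : l (of (φ := φ) true x) = f x := PushoutI.lift_of ..
      exact (congrArg l h1).trans h2
    · ext x
      have h1 : e.symm (ty x) = of (φ := φ) false x := by
        rw [MulEquiv.symm_apply_eq]
        have h3 : π (of (φ := φ) false x) = ty x := PushoutI.lift_of ..
        exact h3.symm
      have h2 : l (of (φ := φ) false x) = g x := PushoutI.lift_of ..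
      exact (congrArg l h1).trans h2

end Pool.Agent.Singer.ConeA
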