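import Pool.Agent.Singer.ConeA.Push
import Pool.Agent.Singer.ConeA.Inj

/-!
# Singer, cone angles: formal lemmas on amalgamated products of groups (module X3b)

* `poMap`: functoriality of the amalgamated product;
* `po_push`: the double of an amalgamated product is the amalgamated product of the doubles;
* `push_three`: three groups in a row;
* `poMap_injective`, `po_map_injective`, `po_inter`: injectivity and intersections.
-/

set_option autoImplicit false

namespace Singer
namespace ConeA

universe u

open Monoid PushoutI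

section map
variable {B E E' L R : Type u} [Group B] [Group E] [Group E'] [Group L] [Group R]

/-- two homomorphisms out of an amalgamated product agree when they agree on the factors -/
lemma po_hom_ext {X : Type*} [Group X] {i : B →* E} {i' : B →* E'} {F F' : PO i i' →* X}
    (h1 : ∀ a, F (poL i i' a) = F' (poL i i' a)) (h2 : ∀ a, F (poR i i' a) = F' (poR i i' a)) : F = F' :=
  hom_ext_of_gen' (j := poL i i') (j' := poR i i') isPush_po.gen h1 h2

/-- the square is symmetric -/
lemma IsPush.symm {C A A' Γ : Type u} [Group C] [Group A] [Group A'] [Group Γ] {φ : C →* A} {φ' : C →* A'}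
    {j : A →* Γ} {j' : A' →* Γ} (h : IsPush φ φ' j j') : IsPush φ' φ j' j where
  comm := h.comm.symm
  gen := by
    rw [Set.union_comm]
    exact h.gen
  lift X _ f f' hf := by
    obtain ⟨F, h1, h2⟩ := h.lift X f' f hf.symm
    exact ⟨F, h2, h1⟩

/-- functoriality of the amalgamated product -/
noncomputable def poMap (i : B →* E) (i' : B →* E') (b : B →* L) (b' : B →* R) (e : E →* L) (e' : E' →* R)
    (h : e.comp i = b) (h' : e'.comp i' = b') : PO i i' →* PO b b' :=
  poLift ((poL b b').comp e) ((poR b b').comp e') (by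
    rw [MonoidHom.comp_assoc, MonoidHom.comp_assoc, h, h']
    exact po_comm)

@[simp] lemma poMap_poL (i : B →* E) (i' : B →* E') (b : B →* L) (b' : B →* R) (e : E →* L) (e' : E' →* R)
    (h : e.comp i = b) (h' : e'.comp i' = b') (a : E) :
    poMap i i' b b' e e' h h' (poL i i' a) = poL b b' (e a) := poLift_poL _ _ _ a

@[simp] lemma poMap_poR (i : B →* E) (i' : B →* E') (b : B →* L) (b' : B →* R) (e : E →* L) (e' : E' →* R)
    (h : e.comp i = b) (h' : e'.comp i' = b') (a : E') :
    poMap i i' b b' e e' h h' (poR i i' a) = poR b b' (e' a) := poLift_poR _ _ _ a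

end map

/-- the double of an amalgamated product is the amalgamated product of the doubles -/
theorem po_push {B E E' L R L₂ R₂ DL DR : Type u} [Group B] [Group E] [Group E'] [Group L] [Group R] [Group L₂]
    [Group R₂] [Group DL] [Group DR] {i : B →* E} {i' : B →* E'} {b : B →* L} {b' : B →* R} {b₂ : B →* L₂}
    {b₂' : B →* R₂} {c : B →* DL} {c' : B →* DR} {e : E →* L} {e' : E' →* R} {e₂ : E →* L₂} {e₂' : E' →* R₂}
    {l : L →* DL} {l₂ : L₂ →* DL} {r : R →* DR} {r₂ : R₂ →* DR}
    (hL : IsPush e e₂ l l₂) (hR : IsPush e' e₂' r r₂)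
    (hb : e.comp i = b) (hb' : e'.comp i' = b') (hb₂ : e₂.comp i = b₂) (hb₂' : e₂'.comp i' = b₂')
    (hc : l.comp b = c) (hc₂ : l₂.comp b₂ = c) (hc' : r.comp b' = c') (hc₂' : r₂.comp b₂' = c') :
    IsPush (poMap i i' b b' e e' hb hb') (poMap i i' b₂ b₂' e₂ e₂' hb₂ hb₂')
      (poMap b b' c c' l r hc hc') (poMap b₂ b₂' c c' l₂ r₂ hc₂ hc₂') where
  comm := by
    refine po_hom_ext (fun a => ?_) fun a => ?_
    · rw [MonoidHom.comp_apply, MonoidHom.comp_apply, poMap_poL, poMap_poL, poMap_poL, poMap_poL]
      exact congrArg _ (DFunLike.congr_fun hL.comm a)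
    · rw [MonoidHom.comp_apply, MonoidHom.comp_apply, poMap_poR, poMap_poR, poMap_poR, poMap_poR]
      exact congrArg _ (DFunLike.congr_fun hR.comm a)
  gen := by
    have hpo : Subgroup.closure (((poL c c').range : Set (PO c c')) ∪ (poR c c').range) = ⊤ :=
      isPush_po.gen
    rw [eq_top_iff, ← hpo, Subgroup.closure_le]
    have h1 : (poL c c').range ≤ Subgroup.closure
        (((poMap b b' c c' l r hc hc').range : Set (PO c c')) ∪ (poMap b₂ b₂' c c' l₂ r₂ hc₂ hc₂').range) := by
      rw [MonoidHom.range_eq_map, ← hL.gen, MonoidHom.map_closure, Subgroup.closure_le]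
      rintro _ ⟨_, ⟨a, rfl⟩ | ⟨a, rfl⟩, rfl⟩
      · exact Subgroup.subset_closure (Or.inl ⟨poL b b' a, poMap_poL ..⟩)
      · exact Subgroup.subset_closure (Or.inr ⟨poL b₂ b₂' a, poMap_poL ..⟩)
    have h2 : (poR c c').range ≤ Subgroup.closure
        (((poMap b b' c c' l r hc hc').range : Set (PO c c')) ∪ (poMap b₂ b₂' c c' l₂ r₂ hc₂ hc₂').range) := by
      rw [MonoidHom.range_eq_map, ← hR.gen, MonoidHom.map_closure, Subgroup.closure_le]
      rintro _ ⟨_, ⟨a, rfl⟩ | ⟨a, rfl⟩, rfl⟩
      · exact Subgroup.subset_closure (Or.inl ⟨poR b b' a, poMap_poR ..⟩)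
      · exact Subgroup.subset_closure (Or.inr ⟨poR b₂ b₂' a, poMap_poR ..⟩)
    rintro x (hx | hx)
    · exact h1 hx
    · exact h2 hx
  lift X _ f f' h := by
    obtain ⟨FL, hF1, hF2⟩ := hL.lift X (f.comp (poL b b')) (f'.comp (poL b₂ b₂')) (by
      ext a
      have := DFunLike.congr_fun h (poL i i' a)
      rw [MonoidHom.comp_apply, MonoidHom.comp_apply, poMap_poL, poMap_poL] at this
      exact this)
    obtain ⟨FR, hG1, hG2⟩ := hR.lift X (f.comp (poR b b')) (f'.comp (poR b₂ b₂')) (by
      ext a
      have := DFunLike.congr_fun h (poR i i' a)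
      rw [MonoidHom.comp_apply, MonoidHom.comp_apply, poMap_poR, poMap_poR] at this
      exact this)
    have hc3 : FL.comp c = FR.comp c' := by
      ext x
      have e1 : FL (l (b x)) = f (poL b b' (b x)) := DFunLike.congr_fun hF1 (b x)
      have e2 : FR (r (b' x)) = f (poR b b' (b' x)) := DFunLike.congr_fun hG1 (b' x)
      have e3 : poL b b' (b x) = poR b b' (b' x) := DFunLike.congr_fun po_comm x
      have e4 : l (b x) = c x := DFunLike.congr_fun hc x
      have e5 : r (b' x) = c' x := DFunLike.congr_fun hc' x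
      rw [MonoidHom.comp_apply, MonoidHom.comp_apply, ← e4, ← e5, e1, e2, e3]
    refine ⟨poLift FL FR hc3, ?_, ?_⟩
    · refine po_hom_ext (fun a => ?_) fun a => ?_
      · rw [MonoidHom.comp_apply, poMap_poL, poLift_poL]
        exact DFunLike.congr_fun hF1 a
      · rw [MonoidHom.comp_apply, poMap_poR, poLift_poR]
        exact DFunLike.congr_fun hG1 a
    · refine po_hom_ext (fun a => ?_) fun a => ?_
      · rw [MonoidHom.comp_apply, poMap_poL, poLift_poL]
        exact DFunLike.congr_fun hF2 a
      · rw [MonoidHom.comp_apply, poMap_poR, poLift_poR]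
        exact DFunLike.congr_fun hG2 a

/-- three groups in a row: `L ← E → P ← E' → R` over `B` -/
theorem push_three {B E E' L R P T₁ T : Type u} [Group B] [Group E] [Group E'] [Group L] [Group R] [Group P]
    [Group T₁] [Group T] {i : B →* E} {i' : B →* E'} {b : B →* L} {b' : B →* R} {e : E →* L} {p : E →* P}
    {p' : E' →* P} {e' : E' →* R} {l : L →* T₁} {t : P →* T₁} {s : T₁ →* T} {r : R →* T}
    (hp : p.comp i = p'.comp i') (hb : e.comp i = b) (hb' : e'.comp i' = b') (h₁ : IsPush e p l t)
    (h₂ : IsPush (t.comp p') e' s r) (hlr : (s.comp l).comp b = r.comp b') :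
    IsPush (poLift p p' hp) (poMap i i' b b' e e' hb hb') (s.comp t) (poLift (s.comp l) r hlr) where
  comm := by
    refine po_hom_ext (fun a => ?_) fun a => ?_
    · show s (t (poLift p p' hp (poL i i' a))) =
        poLift (s.comp l) r hlr (poMap i i' b b' e e' hb hb' (poL i i' a))
      rw [poLift_poL, poMap_poL, poLift_poL]
      exact congrArg s (DFunLike.congr_fun h₁.comm a).symm
    · show s (t (poLift p p' hp (poR i i' a))) =
        poLift (s.comp l) r hlr (poMap i i' b b' e e' hb hb' (poR i i' a))
      rw [poLift_poR, poMap_poR, poLift_poR]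
      exact DFunLike.congr_fun h₂.comm a
  gen := by
    rw [eq_top_iff, ← h₂.gen, Subgroup.closure_le]
    have h1 : s.range ≤ Subgroup.closure
        (((s.comp t).range : Set T) ∪ (poLift (s.comp l) r hlr).range) := by
      rw [MonoidHom.range_eq_map, ← h₁.gen, MonoidHom.map_closure, Subgroup.closure_le]
      rintro _ ⟨_, ⟨a, rfl⟩ | ⟨a, rfl⟩, rfl⟩
      · exact Subgroup.subset_closure (Or.inr ⟨poL b b' a, poLift_poL ..⟩)
      · exact Subgroup.subset_closure (Or.inl ⟨a, rfl⟩)
    rintro x (hx | ⟨a, rfl⟩)
    · exact h1 hx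
    · exact Subgroup.subset_closure (Or.inr ⟨poR b b' a, poLift_poR ..⟩)
  lift X _ f g h := by
    obtain ⟨F₁, hF1, hF2⟩ := h₁.lift X (g.comp (poL b b')) f (by
      ext a
      have := DFunLike.congr_fun h (poL i i' a)
      rw [MonoidHom.comp_apply, MonoidHom.comp_apply, poLift_poL, poMap_poL] at this
      exact this.symm)
    obtain ⟨F, hG1, hG2⟩ := h₂.lift X F₁ (g.comp (poR b b')) (by
      ext a
      have h1 := DFunLike.congr_fun h (poR i i' a)
      rw [MonoidHom.comp_apply, MonoidHom.comp_apply, poLift_poR, poMap_poR] at h1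
      have h2 : F₁ (t (p' a)) = f (p' a) := DFunLike.congr_fun hF2 (p' a)
      exact h2.trans h1)
    refine ⟨F, ?_, ?_⟩
    · rw [← MonoidHom.comp_assoc, hG1, hF2]
    · refine po_hom_ext (fun a => ?_) fun a => ?_
      · rw [MonoidHom.comp_apply, poLift_poL]
        have h1 : F (s (l a)) = F₁ (l a) := DFunLike.congr_fun hG1 (l a)
        exact h1.trans (DFunLike.congr_fun hF1 a)
      · rw [MonoidHom.comp_apply, poLift_poR]
        exact DFunLike.congr_fun hG2 a

/-- **Injectivity lemma**: `X *_B Y → P *_C Q`. -/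
theorem po_map_injective {B X Y C P Q : Type u} [Group B] [Group X] [Group Y] [Group C] [Group P] [Group Q]
    {bx : B →* X} {by' : B →* Y} {cp : C →* P} {cq : C →* Q} (bc : B →* C) (xp : X →* P) (yq : Y →* Q)
    (hbx : Function.Injective bx) (hby : Function.Injective by') (hcp : Function.Injective cp)
    (hcq : Function.Injective cq) (hxp : Function.Injective xp) (hyq : Function.Injective yq)
    (h1 : xp.comp bx = cp.comp bc) (h2 : yq.comp by' = cq.comp bc)
    (hX : ∀ x c, xp x = cp c → ∃ b, bx b = x) (hY : ∀ y c, yq y = cq c → ∃ b, by' b = y)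
    (h : ((poL cp cq).comp xp).comp bx = ((poR cp cq).comp yq).comp by') :
    Function.Injective (poLift ((poL cp cq).comp xp) ((poR cp cq).comp yq) h : PO bx by' →* PO cp cq) := by
  have hbc : Function.Injective bc := by
    intro x y hxy
    refine hbx (hxp ?_)
    have e1 : xp (bx x) = cp (bc x) := DFunLike.congr_fun h1 x
    have e2 : xp (bx y) = cp (bc y) := DFunLike.congr_fun h1 y
    rw [e1, e2, hxy]
  have h0 := h2
  refine (Pool.Agent.Singer.ConeA.push_injective bx by' cp cq bc xp yq hbx hby hcp hcq hbc hxp hyq hX hY h1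
    (poL bx by') (poR bx by') po_comm isPush_po.gen (poL cp cq) (poR cp cq) ?_
    (poLift ((poL cp cq).comp xp) ((poR cp cq).comp yq) h) ?_ ?_).1
  · intro K _ f g hfg
    exact isPush_po.lift K f g hfg
  · exact MonoidHom.ext fun a => poLift_poL _ _ h a
  · exact MonoidHom.ext fun a => poLift_poR _ _ h a

/-- injectivity of `poMap` -/
theorem poMap_injective {B E E' L R : Type u} [Group B] [Group E] [Group E'] [Group L] [Group R] {i : B →* E}
    {i' : B →* E'} {b : B →* L} {b' : B →* R} {e : E →* L} {e' : E' →* R} (hi : Function.Injective i)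
    (hi' : Function.Injective i') (he : Function.Injective e) (he' : Function.Injective e')
    (h : e.comp i = b) (h' : e'.comp i' = b') : Function.Injective (poMap i i' b b' e e' h h') := by
  have hb : Function.Injective b := by
    rw [← h]
    exact he.comp hi
  have hb' : Function.Injective b' := by
    rw [← h']
    exact he'.comp hi'
  refine po_map_injective (MonoidHom.id B) e e' hi hi' hb hb' he he' h h' ?_ ?_ _
  · intro x c hx
    refine ⟨c, he ?_⟩
    rw [hx, ← h]
    rfl
  · intro x c hx
    refine ⟨c, he' ?_⟩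
    rw [hx, ← h']
    rfl

/-- the two factors of an amalgamated product meet in the amalgamated subgroup -/
theorem po_inter {C A A' : Type u} [Group C] [Group A] [Group A'] {φ : C →* A} {φ' : C →* A'}
    (hφ : Function.Injective φ) (hφ' : Function.Injective φ') {a : A} {a' : A'}
    (h : poL φ φ' a = poR φ φ' a') : ∃ c, φ c = a ∧ φ' c = a' := by
  have hinj := famHom_injective hφ hφ'
  have h1 := PushoutI.inf_of_range_eq_base_range (φ := famHom φ φ') hinj (i := true) (j := false) (by simp)
  have h2 : poL φ φ' a ∈ (base (famHom φ φ')).range := by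
    rw [← h1]
    exact ⟨⟨a, rfl⟩, ⟨a', h.symm⟩⟩
  obtain ⟨c, hc⟩ := h2
  refine ⟨c, ?_, ?_⟩
  · refine PushoutI.of_injective (φ := famHom φ φ') hinj true ?_
    have e1 : poL φ φ' (φ c) = base (famHom φ φ') c := poL_apply c
    exact e1.trans hc
  · refine PushoutI.of_injective (φ := famHom φ φ') hinj false ?_
    have e1 : poR φ φ' (φ' c) = base (famHom φ φ') c := poR_apply c
    exact e1.trans (hc.trans h)

end ConeA
end Singer
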