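import Pool.Agent.Singer.ConeA.Ineq
import Pool.Agent.Singer.ConeA.Po

/-!
# Singer, cone angles: the inequality for rows and the cone angle inequality
-/

set_option autoImplicit false
set_option linter.unusedSectionVars false
set_option linter.unusedVariables false

namespace Singer
namespace ConeA

universe u

open Monoid

variable {A : Type u} [Group A] {C : Bool → Subgroup A}

lemma IsPush.cast {K X Y Γ : Type u} [Group K] [Group X] [Group Y] [Group Γ] {φ ψ : K →* X} {φ' ψ' : K →* Y}
    {j : X →* Γ} {j' : Y →* Γ} (h : IsPush φ φ' j j') (h1 : φ = ψ) (h2 : φ' = ψ') : IsPush ψ ψ' j j' := by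
  rw [← h1, ← h2]
  exact h

section res
variable (hA : Nonempty (Res.{0} A)) (hC : ∀ b, Nonempty (Res.{0} (C b))) (hB : Nonempty (Res.{0} (co C)))
include hA hC hB

/-- the inequality for rows -/
theorem row_two_le {p j q : ℕ} (hp : 1 ≤ p) (hj : 1 ≤ j) (hq : 1 ≤ q) (hN : Even (p + j + q)) (ij : EndInj C j)
    (n : ℕ) : 2 * bt (Row C 0 (p + j + q)) n ≤
      bt (Ring C j) n + bt (Row C 0 (2 * p)) n + bt (Row C 0 (2 * q)) n + bp (co C) n := by
  -- the three pieces
  have hL := isRow_row (C := C) (m := 0) hp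
  have hP := isRow_row (C := C) (m := 0 + p) hj
  have hR := isRow_row (C := C) (m := 0 + (p + j : ℕ)) hq
  have hT1 := isRow_row (C := C) (m := 0) (p := p + j) (by omega)
  have hT := isRow_row (C := C) (m := 0) (p := p + j + q) (by omega)
  -- the faces
  have e := co_le_fc C (0 + (p : ℤ) - 1)
  have e' := co_le_fc C (0 + (p : ℤ) + j - 1)
  let i : co C →* fc C (0 + (p : ℤ) - 1) := Subgroup.inclusion e
  let i' : co C →* fc C (0 + (p : ℤ) + j - 1) := Subgroup.inclusion e'
  let fL : fc C (0 + (p : ℤ) - 1) →* Row C 0 p := (rof C 0 p (0 + p - 1)).comp (Subgroup.subtype _)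
  let fR : fc C (0 + (p : ℤ) + j - 1) →* Row C (0 + (p + j : ℕ)) q :=
    (rof C (0 + (p + j : ℕ)) q (0 + (p + j : ℕ))).comp (Subgroup.subtype _)
  obtain ⟨l, t, hl, ht, h1⟩ := row_push hp hj hL hP hT1 (E := fc C (0 + (p : ℤ) - 1)) rfl
  obtain ⟨s, r, hs, hr, h2⟩ := row_push (by omega) hq hT1 hR hT (E := fc C (0 + (p : ℤ) + j - 1)) (by
    push_cast
    congr 1
    ring)
  have hc : ∀ c ∈ co C, rof C (0 + p) j (0 + p) c = rof C (0 + p) j (0 + p + j - 1) c := fun c hc =>
    hP.co_eq le_rfl (by omega) (by omega) (by omega) hc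
  have hleg : (rof C 0 (p + j) (0 + ((p + j : ℕ) : ℤ) - 1)).comp (fc C (0 + (p : ℤ) + j - 1)).subtype =
      t.comp ((rof C (0 + p) j (0 + p + j - 1)).comp (fc C (0 + (p : ℤ) + j - 1)).subtype) := by
    refine MonoidHom.ext fun c => ?_
    have h3 := ht (0 + p + j - 1) (by omega) (by omega) c
    have h4 : 0 + ((p + j : ℕ) : ℤ) - 1 = 0 + p + j - 1 := by push_cast; ring
    rw [h4]
    exact h3.symm
  rw [hleg] at h2
  have hlr : (s.comp l).comp (fL.comp i) = r.comp (fR.comp i') := by
    refine MonoidHom.ext fun c => ?_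
    show s (l (rof C 0 p (0 + p - 1) c)) = r (rof C _ q _ c)
    rw [hl _ (by omega) (by omega), hs _ (by omega) (by push_cast; omega), hr _ le_rfl (by omega)]
    exact hT.co_eq (by omega) (by push_cast; omega) (by omega) (by push_cast; omega) c.2
  have hX := push_three (i := i) (i' := i') (e := fL) (e' := fR) (b := fL.comp i) (b' := fR.comp i')
    (MonoidHom.ext fun c => hc c c.2) rfl rfl h1 h2 hlr
  -- the double of the middle piece
  obtain ⟨j1, j1', hD1⟩ := ring_push hj hj (two_mul j).symm hP hP (isRing_ring hj (0 + p)) rfl rfl e e' hc hc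
  -- the doubles of the two others
  obtain ⟨l1, l2, hl1, hl2, hDL⟩ := row_push hp hp hL (hL.refl (0 + p) (by
    have : (0 : ℤ) + (0 + p) + p = 2 * p := by ring
    rw [this]
    exact even_two_mul _)) (isRow_row (C := C) (m := 0) (p := p + p) (by omega)) (E := fc C (0 + (p : ℤ) - 1)) rfl
  have hDL' : IsPush fL fL l1 l2 := by
    refine hDL.cast rfl ?_
    have h4 : (0 : ℤ) + (0 + p) + p - 1 - (0 + p) = 0 + p - 1 := by ring
    show (rof C 0 p (0 + (0 + p) + p - 1 - (0 + p))).comp _ = fL
    rw [h4]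
  obtain ⟨r1, r2, hr1, hr2, hDR⟩ := row_push hq hq (hR.refl 0 (by
      have h4 : (0 : ℤ) + (p + j : ℕ) + 0 + q = ((p + j + q : ℕ) : ℤ) := by push_cast; ring
      rw [h4]
      exact (Int.even_coe_nat _).2 hN)) (hR.shift (0 + q) (by
      have h4 : (0 : ℤ) + (p + j : ℕ) + (0 + q) = ((p + j + q : ℕ) : ℤ) := by push_cast; ring
      rw [h4]
      exact (Int.even_coe_nat _).2 hN)) (isRow_row (C := C) (m := 0) (p := q + q) (by omega))
      (E := fc C (0 + (p : ℤ) + j - 1)) (fc_par (by
      have h4 : (0 : ℤ) + p + j - 1 + (0 + q - 1) = ((p + j + q : ℕ) : ℤ) - 2 := by push_cast; ring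
      rw [h4]
      exact ((Int.even_coe_nat _).2 hN).sub even_two))
  have hDR' : IsPush fR fR r1 r2 := by
    refine hDR.cast ?_ ?_
    · have h4 : (0 : ℤ) + (p + j : ℕ) + 0 + q - 1 - (0 + q - 1) = 0 + (p + j : ℕ) := by ring
      show (rof C _ q (0 + (p + j : ℕ) + 0 + q - 1 - (0 + q - 1))).comp _ = fR
      rw [h4]
    · have h4 : (0 : ℤ) + q - (0 + q) + (0 + (p + j : ℕ)) = 0 + (p + j : ℕ) := by ring
      show (rof C _ q (0 + q - (0 + q) + (0 + (p + j : ℕ)))).comp _ = fR
      rw [h4]
  have hD2 := po_push (i := i) (i' := i') (b := fL.comp i) (b' := fR.comp i') (b₂ := fL.comp i) (b₂' := fR.comp i')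
    (c := l1.comp (fL.comp i)) (c' := r1.comp (fR.comp i')) hDL' hDR' rfl rfl rfl rfl rfl
    (MonoidHom.ext fun x => (DFunLike.congr_fun hDL'.comm (i x)).symm) rfl
    (MonoidHom.ext fun x => (DFunLike.congr_fun hDR'.comm (i' x)).symm)
  -- injectivity
  have ji : Function.Injective i := Subgroup.inclusion_injective _
  have ji' : Function.Injective i' := Subgroup.inclusion_injective _
  have jL : Function.Injective fL := (hL.inj hp (by omega) (by omega)).comp Subtype.val_injective
  have jR : Function.Injective fR := (hR.inj hq le_rfl (by omega)).comp Subtype.val_injective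
  have jb := ij (0 + p) _ _ hP _ _ rfl rfl e e' hc
  have jm : Function.Injective (poMap i i' (fL.comp i) (fR.comp i') fL fR rfl rfl) := poMap_injective ji ji' jL jR rfl rfl
  have jLi : Function.Injective (fL.comp i) := fun _ _ h => ji (jL h)
  have jRi : Function.Injective (fR.comp i') := fun _ _ h => ji' (jR h)
  have jc : Function.Injective (l1.comp (fL.comp i)) := fun _ _ h => jLi ((hDL'.amal jL jL).hj h)
  have jc' : Function.Injective (r1.comp (fR.comp i')) := fun _ _ h => jRi ((hDR'.amal jR jR).hj h)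
  -- resolutions
  have rX := amal_res (amal_po jLi jRi) hB (res_row hA hC hB hp) (res_row hA hC hB hq)
  have h5 := amal_two_le (hX.amal jb jm) (hD1.amal jb jb) (hD2.amal jm jm) (res_bd hA hC hB rfl rfl e e')
    (res_row hA hC hB hj) rX n
  have h6 := amal_mv' (amal_po jc jc') hB (res_row hA hC hB (by omega)) (res_row hA hC hB (by omega)) n
  rw [two_mul p, two_mul q]
  linarith

/-- **The cone angle inequality.** -/
theorem cone_ineq {j k : ℕ} (hj : 1 ≤ j) (hk : j ≤ k) (ij : EndInj C j) (n : ℕ) :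
    (j : ℝ) * bt (Ring C k) n ≤ k * bt (Ring C j) n + (k - j) * bp (co C) n := by
  refine Pool.Agent.Singer.ConeA.cone_recursion (fun k => bt (Ring C k) n) (fun N => bt (Row C 0 N) n) j 1 hj
    (bp (co C) n) (cst C n) ?_ ?_ ?_ k hk
  · intro k hk
    have h1 := ring_two_le hA hC hB (k := k) (p := j) (q := 2 * k - j) hj (by omega) (by omega) ij
      (endInj_of_two_le (by omega)) n
    exact h1
  · intro p q hp hq hN
    have h1 := row_two_le hA hC hB hp hj hq hN ij n
    show 2 * bt (Row C 0 (p + j + q)) n ≤ _ + _ + _ + _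
    linarith
  · intro p q hp hq
    exact ring_mv hA hC hB hp hq n

end res

end ConeA
end Singer
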