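import Pool.Agent.Singer.Gen.Push
import Pool.Agent.Singer.FinBetti

/-!
# Singer, cone angles: pushout squares of groups, Betti numbers of groups

* `IsPush`: the universal property of a pushout square of groups; with injective legs it gives an `Amal`;
* `bt Γ i`: the `ℓ²`-Betti number of `Γ` in degree `i`, computed with some resolution;
* `amal_two_le`: the gluing inequality; `amal_mv`: the Mayer-Vietoris inequality.
-/

set_option autoImplicit false
set_option linter.unusedSectionVars false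
set_option linter.unusedVariables false

namespace Singer
namespace ConeA

universe u v

open Monoid PushoutI

/-! ### Betti numbers of groups -/

open Classical in
/-- the Betti numbers of a group with a resolution -/
noncomputable def bt (Γ : Type v) [Group Γ] (i : ℕ) : ℝ :=
  if h : Nonempty (Res.{0} Γ) then h.some.toPreRes.toHC.h i else 0

lemma bt_eq {Γ : Type v} [Group Γ] (R : Res.{0} Γ) (i : ℕ) : bt Γ i = R.toPreRes.toHC.h i := by
  unfold bt
  rw [dif_pos ⟨R⟩]
  exact Res.h_eq _ _ i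

lemma bt_finRes {Γ : Type v} [Group Γ] (R : FinRes Γ) (i : ℕ) : R.betti i = bt Γ i := by
  rw [bt_eq R.toRes]
  exact R.betti_eq i

lemma finRes_nonempty {Γ : Type v} [Group Γ] (R : FinRes Γ) : Nonempty (Res.{0} Γ) := ⟨R.toRes⟩

lemma bt_nonneg {Γ : Type v} [Group Γ] (h : Nonempty (Res.{0} Γ)) (i : ℕ) : 0 ≤ bt Γ i := by
  obtain ⟨R⟩ := h
  rw [bt_eq R]
  exact R.toPreRes.toHC.h_nonneg i

/-! ### pushout squares -/

/-- pushout squares of groups -/
structure IsPush {C A A' Γ : Type u} [Group C] [Group A] [Group A'] [Group Γ] (φ : C →* A) (φ' : C →* A')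
    (j : A →* Γ) (j' : A' →* Γ) : Prop where
  comm : j.comp φ = j'.comp φ'
  gen : Subgroup.closure ((j.range : Set Γ) ∪ j'.range) = ⊤
  lift : ∀ (X : Type u) [Group X] (f : A →* X) (f' : A' →* X), f.comp φ = f'.comp φ' →
    ∃ F : Γ →* X, F.comp j = f ∧ F.comp j' = f'

section
variable {C A A' Γ : Type u} [Group C] [Group A] [Group A'] [Group Γ] {φ : C →* A} {φ' : C →* A'} {j : A →* Γ}
  {j' : A' →* Γ}

lemma hom_ext_of_gen {X : Type*} [Group X] (h : Subgroup.closure ((j.range : Set Γ) ∪ j'.range) = ⊤) {F F' : Γ →* X}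
    (h1 : F.comp j = F'.comp j) (h2 : F.comp j' = F'.comp j') : F = F' := by
  have h3 : F.eqLocus F' = ⊤ := by
    rw [eq_top_iff, ← h, Subgroup.closure_le]
    rintro x (⟨a, rfl⟩ | ⟨a, rfl⟩)
    · exact DFunLike.congr_fun h1 a
    · exact DFunLike.congr_fun h2 a
  ext x
  have h4 : x ∈ F.eqLocus F' := by
    rw [h3]
    trivial
  exact h4

lemma hom_ext_of_gen' {X : Type*} [Group X] (h : Subgroup.closure ((j.range : Set Γ) ∪ j'.range) = ⊤) {F F' : Γ →* X}
    (h1 : ∀ a, F (j a) = F' (j a)) (h2 : ∀ a, F (j' a) = F' (j' a)) : F = F' :=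
  hom_ext_of_gen h (MonoidHom.ext h1) (MonoidHom.ext h2)

end

/-- the two groups as a family -/
def Fam (A A' : Type u) : Bool → Type u
  | true => A
  | false => A'

instance instGroupFam (A A' : Type u) [Group A] [Group A'] : ∀ b, Group (Fam A A' b)
  | true => (inferInstance : Group A)
  | false => (inferInstance : Group A')

section
variable {C A A' : Type u} [Group C] [Group A] [Group A']

/-- the two homomorphisms as a family -/
def famHom (φ : C →* A) (φ' : C →* A') : ∀ b, C →* Fam A A' b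
  | true => φ
  | false => φ'

lemma famHom_injective {φ : C →* A} {φ' : C →* A'} (hφ : Function.Injective φ) (hφ' : Function.Injective φ') :
    ∀ b, Function.Injective (famHom φ φ' b)
  | true => hφ
  | false => hφ'

/-- the two homomorphisms out of the groups as a family -/
def famOut {Γ : Type u} [Group Γ] (j : A →* Γ) (j' : A' →* Γ) : ∀ b, Fam A A' b →* Γ
  | true => j
  | false => j'

/-- the amalgamated product -/
abbrev PO (φ : C →* A) (φ' : C →* A') : Type u := PushoutI (famHom φ φ')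

/-- the first homomorphism -/
def poL (φ : C →* A) (φ' : C →* A') : A →* PO φ φ' := of (φ := famHom φ φ') true

/-- the second homomorphism -/
def poR (φ : C →* A) (φ' : C →* A') : A' →* PO φ φ' := of (φ := famHom φ φ') false

variable {φ : C →* A} {φ' : C →* A'}

lemma poL_apply (c : C) : poL φ φ' (φ c) = base (famHom φ φ') c := of_apply_eq_base (famHom φ φ') true c

lemma poR_apply (c : C) : poR φ φ' (φ' c) = base (famHom φ φ') c := of_apply_eq_base (famHom φ φ') false c

lemma po_comm : (poL φ φ').comp φ = (poR φ φ').comp φ' :=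
  MonoidHom.ext fun c => (poL_apply c).trans (poR_apply c).symm

lemma famOut_comp {Γ : Type u} [Group Γ] {j : A →* Γ} {j' : A' →* Γ} (h : j.comp φ = j'.comp φ') :
    ∀ b, (famOut j j' b).comp (famHom φ φ' b) = j.comp φ
  | true => rfl
  | false => h.symm

/-- homomorphisms out of the amalgamated product -/
noncomputable def poLift {Γ : Type u} [Group Γ] (j : A →* Γ) (j' : A' →* Γ) (h : j.comp φ = j'.comp φ') :
    PO φ φ' →* Γ :=
  PushoutI.lift (φ := famHom φ φ') (famOut j j') (j.comp φ) (famOut_comp h)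

@[simp] lemma poLift_poL {Γ : Type u} [Group Γ] (j : A →* Γ) (j' : A' →* Γ) (h : j.comp φ = j'.comp φ') (a : A) :
    poLift j j' h (poL φ φ' a) = j a :=
  PushoutI.lift_of (φ := famHom φ φ') (famOut j j') (j.comp φ) (famOut_comp h) (i := true) a

@[simp] lemma poLift_poR {Γ : Type u} [Group Γ] (j : A →* Γ) (j' : A' →* Γ) (h : j.comp φ = j'.comp φ') (a : A') :
    poLift j j' h (poR φ φ' a) = j' a :=
  PushoutI.lift_of (φ := famHom φ φ') (famOut j j') (j.comp φ) (famOut_comp h) (i := false) a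

/-- the amalgamated product is a pushout -/
theorem isPush_po : IsPush φ φ' (poL φ φ') (poR φ φ') where
  comm := po_comm
  gen := PushSide.closure_eq_top
  lift X _ f f' h := ⟨poLift f f' h, MonoidHom.ext fun a => poLift_poL f f' h a,
    MonoidHom.ext fun a => poLift_poR f f' h a⟩

/-- the amalgamated product as an amalgam -/
theorem amal_po (hφ : Function.Injective φ) (hφ' : Function.Injective φ') :
    Amal φ φ' (poL φ φ') (poR φ φ') ((poL φ φ').comp φ) := by
  have h := amal_pushout (φ := famHom φ φ') (famHom_injective hφ hφ')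
  have h1 : (poL φ φ').comp φ = base (famHom φ φ') := MonoidHom.ext fun c => poL_apply c
  rw [h1]
  exact h

end

/-- transport of an amalgam by an isomorphism -/
theorem amal_equiv {C A A' Γ Γ' : Type*} [Group C] [Group A] [Group A'] [Group Γ] [Group Γ'] {φ : C →* A} {φ' : C →* A'}
    {j : A →* Γ} {j' : A' →* Γ} {c : C →* Γ} (h : Amal φ φ' j j' c) (e : Γ ≃* Γ') :
    Amal φ φ' (e.toMonoidHom.comp j) (e.toMonoidHom.comp j') (e.toMonoidHom.comp c) where
  hφ := h.hφ
  hφ' := h.hφ'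
  hj := e.injective.comp h.hj
  hj' := e.injective.comp h.hj'
  hc := e.injective.comp h.hc
  e := by rw [MonoidHom.comp_assoc, h.e]
  e' := by rw [MonoidHom.comp_assoc, h.e']
  side := by
    obtain ⟨S, h1, h2, h3⟩ := h.side
    refine ⟨e '' S, ?_, ?_, ?_⟩
    · rintro _ ⟨g, hg, rfl⟩ _ ⟨a, rfl⟩
      exact ⟨g * j a, h1 g hg _ ⟨a, rfl⟩, map_mul e _ _⟩
    · rintro _ ⟨x, rfl⟩
      exact ⟨c x, h2 _ ⟨x, rfl⟩, rfl⟩
    · rintro _ ⟨g, hg, rfl⟩ hgc _ ⟨a, rfl⟩
      have hgc' : g ∉ c.range := by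
        rintro ⟨x, hx⟩
        exact hgc ⟨x, congrArg e hx⟩
      obtain ⟨h4, h5⟩ := h3 g hg hgc' _ ⟨a, rfl⟩
      refine ⟨⟨g * j' a, h4, map_mul e _ _⟩, ?_⟩
      rintro ⟨x, hx⟩
      refine h5 ⟨x, e.injective ?_⟩
      rw [map_mul]
      exact hx
  gen := by
    have h1 : (⇑e.toMonoidHom '' ((j.range : Set Γ) ∪ j'.range)) =
        ((e.toMonoidHom.comp j).range : Set Γ') ∪ (e.toMonoidHom.comp j').range := by
      rw [Set.image_union]
      congr 1
      · ext x
        constructor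
        · rintro ⟨_, ⟨a, rfl⟩, rfl⟩
          exact ⟨a, rfl⟩
        · rintro ⟨a, rfl⟩
          exact ⟨_, ⟨a, rfl⟩, rfl⟩
      · ext x
        constructor
        · rintro ⟨_, ⟨a, rfl⟩, rfl⟩
          exact ⟨a, rfl⟩
        · rintro ⟨a, rfl⟩
          exact ⟨_, ⟨a, rfl⟩, rfl⟩
    rw [← h1, ← MonoidHom.map_closure, h.gen]
    exact Subgroup.map_top_of_surjective _ e.surjective

/-- a pushout square with injective legs is an amalgam -/
theorem IsPush.amal {C A A' Γ : Type u} [Group C] [Group A] [Group A'] [Group Γ] {φ : C →* A} {φ' : C →* A'}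
    {j : A →* Γ} {j' : A' →* Γ} (h : IsPush φ φ' j j') (hφ : Function.Injective φ) (hφ' : Function.Injective φ') :
    Amal φ φ' j j' (j.comp φ) := by
  obtain ⟨F, hF1, hF2⟩ := h.lift (PO φ φ') (poL φ φ') (poR φ φ') po_comm
  have hl : F.comp (poLift j j' h.comm) = MonoidHom.id _ := by
    refine hom_ext_of_gen' (j := poL φ φ') (j' := poR φ φ') isPush_po.gen (fun a => ?_) fun a => ?_
    · show F (poLift j j' h.comm (poL φ φ' a)) = poL φ φ' a
      rw [poLift_poL]
      exact DFunLike.congr_fun hF1 a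
    · show F (poLift j j' h.comm (poR φ φ' a)) = poR φ φ' a
      rw [poLift_poR]
      exact DFunLike.congr_fun hF2 a
  have hr : (poLift j j' h.comm).comp F = MonoidHom.id _ := by
    refine hom_ext_of_gen' (j := j) (j' := j') h.gen (fun a => ?_) fun a => ?_
    · show poLift j j' h.comm (F (j a)) = j a
      have h1 : F (j a) = poL φ φ' a := DFunLike.congr_fun hF1 a
      rw [h1, poLift_poL]
    · show poLift j j' h.comm (F (j' a)) = j' a
      have h1 : F (j' a) = poR φ φ' a := DFunLike.congr_fun hF2 a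
      rw [h1, poLift_poR]
  have h1 := amal_equiv (amal_po hφ hφ') (MonoidHom.toMulEquiv (poLift j j' h.comm) F hl hr)
  have h2 : (MonoidHom.toMulEquiv (poLift j j' h.comm) F hl hr).toMonoidHom.comp (poL φ φ') = j :=
    MonoidHom.ext fun a => poLift_poL j j' h.comm a
  have h3 : (MonoidHom.toMulEquiv (poLift j j' h.comm) F hl hr).toMonoidHom.comp (poR φ φ') = j' :=
    MonoidHom.ext fun a => poLift_poR j j' h.comm a
  rw [← MonoidHom.comp_assoc, h2, h3] at h1
  exact h1

/-! ### inequalities -/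

section ineq
variable {C A A' Γ D D' : Type u} [Group C] [Group A] [Group A'] [Group Γ] [Group D] [Group D'] {φ : C →* A}
  {φ' : C →* A'} {j : A →* Γ} {j' : A' →* Γ} {a₁ a₂ : A →* D} {a₁' a₂' : A' →* D'}

/-- an amalgam of groups with resolutions has a resolution -/
theorem amal_res {c : C →* Γ} (h : Amal φ φ' j j' c) (hC : Nonempty (Res.{0} C)) (hA : Nonempty (Res.{0} A))
    (hA' : Nonempty (Res.{0} A')) : Nonempty (Res.{0} Γ) := by
  obtain ⟨RC⟩ := hC
  obtain ⟨RA⟩ := hA
  obtain ⟨RA'⟩ := hA'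
  obtain ⟨F⟩ := exists_premap (RC.toPreRes.ind φ h.hφ) RA
  obtain ⟨F'⟩ := exists_premap (RC.toPreRes.ind φ' h.hφ') RA'
  obtain ⟨S, hS⟩ := h.exists_res RC RA RA' F F'
  exact ⟨S⟩

/-- the Mayer-Vietoris inequality -/
theorem amal_mv {c : C →* Γ} (h : Amal φ φ' j j' c) (hC : Nonempty (Res.{0} C)) (hA : Nonempty (Res.{0} A))
    (hA' : Nonempty (Res.{0} A')) (i : ℕ) : bt Γ (i + 1) ≤ bt C i + bt A (i + 1) + bt A' (i + 1) := by
  obtain ⟨RC⟩ := hC
  obtain ⟨RA⟩ := hA
  obtain ⟨RA'⟩ := hA'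
  obtain ⟨F⟩ := exists_premap (RC.toPreRes.ind φ h.hφ) RA
  obtain ⟨F'⟩ := exists_premap (RC.toPreRes.ind φ' h.hφ') RA'
  obtain ⟨S, hS⟩ := h.exists_res RC RA RA' F F'
  rw [bt_eq S, bt_eq RC, bt_eq RA, bt_eq RA', hS, h.h_succ]
  have h1 := h.kap_le F F' i
  have h2 := h.kap_le F F' (i + 1)
  linarith

/-- the Mayer-Vietoris inequality in degree zero -/
theorem amal_mv_zero {c : C →* Γ} (h : Amal φ φ' j j' c) (hC : Nonempty (Res.{0} C)) (hA : Nonempty (Res.{0} A))
    (hA' : Nonempty (Res.{0} A')) : bt Γ 0 ≤ bt A 0 + bt A' 0 := by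
  obtain ⟨RC⟩ := hC
  obtain ⟨RA⟩ := hA
  obtain ⟨RA'⟩ := hA'
  obtain ⟨F⟩ := exists_premap (RC.toPreRes.ind φ h.hφ) RA
  obtain ⟨F'⟩ := exists_premap (RC.toPreRes.ind φ' h.hφ') RA'
  obtain ⟨S, hS⟩ := h.exists_res RC RA RA' F F'
  rw [bt_eq S, bt_eq RA, bt_eq RA', hS, h.h_zero]
  have h1 := h.kap_le F F' 0
  linarith

/-- the gluing inequality -/
theorem amal_two_le {c : C →* Γ} (h : Amal φ φ' j j' c) {cD : C →* D} (hD : Amal φ φ a₁ a₂ cD) {cD' : C →* D'}
    (hD' : Amal φ' φ' a₁' a₂' cD') (hC : Nonempty (Res.{0} C)) (hA : Nonempty (Res.{0} A))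
    (hA' : Nonempty (Res.{0} A')) (i : ℕ) : 2 * bt Γ i ≤ bt D i + bt D' i := by
  obtain ⟨RC⟩ := hC
  obtain ⟨RA⟩ := hA
  obtain ⟨RA'⟩ := hA'
  obtain ⟨S, SD, SD', h1⟩ := h.exists_le hD hD' RC RA RA'
  rw [bt_eq S, bt_eq SD, bt_eq SD']
  exact h1 i

end ineq

end ConeA
end Singer
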