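import Pool.Agent.Singer.ConeA.Row

/-!
# Singer, cone angles: rings of copies of a group

* `Ring C k`: `2k` copies of `A` in a cycle, the copies `i` and `i + 1` amalgamated along `fc C i`;
* `ring_push`: a ring is the amalgamated product of two rows along their ends.
-/

set_option autoImplicit false
set_option linter.unusedSectionVars false
set_option linter.unusedVariables false

namespace Singer
namespace ConeA

universe u

open Monoid

variable {A : Type u} [Group A]

/-- `2k` copies of `A` in a cycle; the copies `i` and `i + 1` are amalgamated along `C true` for even `i`, along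
`C false` for odd `i` -/
abbrev Ring (C : Bool → Subgroup A) (k : ℕ) : Type u := Sq (ZMod (2 * k)) fun z => fc C (z.val : ℤ)

/-- the copy `z` in the ring -/
abbrev ringOf (C : Bool → Subgroup A) (k : ℕ) (z : ZMod (2 * k)) : A →* Ring C k :=
  sqOf (fun z : ZMod (2 * k) => fc C (z.val : ℤ)) z

/-- the universal property of a ring -/
structure IsRing (C : Bool → Subgroup A) (m : ℤ) (k : ℕ) {T : Type u} [Group T] (t : ℤ → A →* T) : Prop where
  rel : ∀ i, m ≤ i → i + 1 < m + 2 * k → ∀ c ∈ fc C i, t i c = t (i + 1) c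
  rel' : ∀ c ∈ fc C (m - 1), t (m + 2 * k - 1) c = t m c
  top : ∀ K : Subgroup T, (∀ i, m ≤ i → i < m + 2 * k → ∀ a, t i a ∈ K) → K = ⊤
  lift : ∀ (X : Type u) [Group X] (f : ℤ → A →* X),
    (∀ i, m ≤ i → i + 1 < m + 2 * k → ∀ c ∈ fc C i, f i c = f (i + 1) c) →
    (∀ c ∈ fc C (m - 1), f (m + 2 * k - 1) c = f m c) →
      ∃ F : T →* X, ∀ i, m ≤ i → i < m + 2 * k → ∀ a, F (t i a) = f i a

variable {C : Bool → Subgroup A}

lemma fc_val {k : ℕ} (hk : 1 ≤ k) (i : ℤ) : fc C (((i : ZMod (2 * k)).val : ℕ) : ℤ) = fc C i := by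
  have : NeZero (2 * k) := ⟨by omega⟩
  refine fc_congr C ?_
  rw [ZMod.val_intCast, Int.even_iff, Int.even_iff, Int.emod_emod_of_dvd]
  push_cast
  exact dvd_mul_right _ _

lemma ringOf_rel {k : ℕ} (hk : 1 ≤ k) (i : ℤ) {c : A} (hc : c ∈ fc C i) :
    ringOf C k (i : ZMod (2 * k)) c = ringOf C k ((i + 1 : ℤ) : ZMod (2 * k)) c := by
  have h := sqOf_rel (l := fun z : ZMod (2 * k) => fc C (z.val : ℤ)) (i := (i : ZMod (2 * k))) (c := c) (by
    show c ∈ fc C (((i : ZMod (2 * k)).val : ℕ) : ℤ)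
    rw [fc_val hk]
    exact hc)
  push_cast
  exact h

/-- a representative in an interval -/
lemma exists_rep {k : ℕ} (hk : 1 ≤ k) (m : ℤ) (z : ZMod (2 * k)) : ∃ r : ℕ, r < 2 * k ∧ ((m + r : ℤ) : ZMod (2 * k)) = z := by
  have : NeZero (2 * k) := ⟨by omega⟩
  refine ⟨(z - m).val, ZMod.val_lt _, ?_⟩
  push_cast
  rw [ZMod.natCast_zmod_val]
  ring

theorem isRing_ring {k : ℕ} (hk : 1 ≤ k) (m : ℤ) : IsRing C m k fun i => ringOf C k (i : ZMod (2 * k)) where
  rel i _ _ c hc := ringOf_rel hk i hc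
  rel' c hc := by
    have h1 : fc C (m - 1) = fc C (m + 2 * k - 1) := fc_par (by
      have : m - 1 + (m + 2 * k - 1) = 2 * (m + k - 1) := by ring
      rw [this]
      exact even_two_mul _)
    rw [h1] at hc
    have h2 := ringOf_rel (k := k) hk _ hc
    have h3 : ((m + 2 * k - 1 + 1 : ℤ) : ZMod (2 * k)) = (m : ZMod (2 * k)) := by
      have h4 : m + 2 * (k : ℤ) - 1 + 1 = m + ((2 * k : ℕ) : ℤ) := by push_cast; ring
      rw [h4, Int.cast_add, Int.cast_natCast, ZMod.natCast_self, add_zero]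
    rw [h3] at h2
    exact h2
  top K h := by
    rw [eq_top_iff, ← sq_closure, Subgroup.closure_le]
    intro x hx
    obtain ⟨z, a, rfl⟩ := Set.mem_iUnion.1 hx
    obtain ⟨r, hr, rfl⟩ := exists_rep hk m z
    exact h (m + r) (by omega) (by omega) a
  lift X _ f hf hf' := by
    have : NeZero (2 * k) := ⟨by omega⟩
    have hv : ∀ r : ℕ, r < 2 * k → (((m + r : ℤ) : ZMod (2 * k)) - m).val = r := by
      intro r hr
      have h1 : ((m + r : ℤ) : ZMod (2 * k)) - m = (r : ZMod (2 * k)) := by push_cast; ring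
      rw [h1, ZMod.val_natCast, Nat.mod_eq_of_lt hr]
    let g : ZMod (2 * k) → A →* X := fun z => f (m + ((z - m).val : ℕ))
    have hg : ∀ r : ℕ, r < 2 * k → g ((m + r : ℤ) : ZMod (2 * k)) = f (m + r) := by
      intro r hr
      show f (m + (((((m + r : ℤ) : ZMod (2 * k)) - m).val : ℕ) : ℤ)) = f (m + r)
      rw [hv r hr]
    refine ⟨sqLift g ?_, ?_⟩
    · intro z c hc
      obtain ⟨r, hr, rfl⟩ := exists_rep hk m z
      have hc' : c ∈ fc C (m + r) := by
        have h1 : c ∈ fc C ((((m + r : ℤ) : ZMod (2 * k)).val : ℕ) : ℤ) := hc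
        rw [fc_val hk] at h1
        exact h1
      have h2 : ((m + r : ℤ) : ZMod (2 * k)) + 1 = ((m + (r + 1 : ℕ) : ℤ) : ZMod (2 * k)) := by push_cast; ring
      rw [h2, hg r hr]
      rcases Nat.lt_or_ge (r + 1) (2 * k) with h3 | h3
      · rw [hg (r + 1) h3, hf (m + r) (by omega) (by omega) c hc']
        congr 2
        push_cast
        ring
      · have h4 : r + 1 = 2 * k := by omega
        have h5 : ((m + (r + 1 : ℕ) : ℤ) : ZMod (2 * k)) = ((m + (0 : ℕ) : ℤ) : ZMod (2 * k)) := by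
          rw [h4]
          push_cast
          have h6 : ((2 : ZMod (2 * k)) * (k : ZMod (2 * k))) = 0 := by
            have h7 := ZMod.natCast_self (2 * k)
            push_cast at h7
            exact h7
          rw [h6]
        rw [h5, hg 0 (by omega)]
        have h8 : m + (r : ℤ) = m + 2 * k - 1 := by omega
        have h9 : fc C (m + r) = fc C (m - 1) := fc_par (by
          rw [h8]
          have : m + 2 * (k : ℤ) - 1 + (m - 1) = 2 * (m + k - 1) := by ring
          rw [this]
          exact even_two_mul _)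
        rw [h9] at hc'
        rw [h8, Nat.cast_zero, add_zero]
        exact hf' c hc'
    · intro i h1 h2 a
      obtain ⟨r, rfl⟩ := Int.le.dest h1
      show sqLift g _ (ringOf C k _ a) = _
      rw [sqLift_of, hg r (by omega)]

section
variable {m : ℤ} {k p q : ℕ} {T T' S : Type u} [Group T] [Group T'] [Group S] {t : ℤ → A →* T} {t' : ℤ → A →* T'}
  {s : ℤ → A →* S}

/-- a ring is the amalgamated product of two rows along their ends -/
theorem ring_push (hp : 1 ≤ p) (hq : 1 ≤ q) (hpq : p + q = 2 * k) (h : IsRow C m p t) (h' : IsRow C m q t')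
    (hs : IsRing C m k s) {E E' : Subgroup A} (hE : E = fc C (m - 1)) (hE' : E' = fc C (m + p - 1))
    (e : co C ≤ E) (e' : co C ≤ E') (hc : ∀ c ∈ co C, t m c = t (m + p - 1) c)
    (hc' : ∀ c ∈ co C, t' m c = t' (m + q - 1) c) :
    ∃ (j : T →* S) (j' : T' →* S), IsPush (bd e e' (t m) (t (m + p - 1)) hc) (bd e e' (t' m) (t' (m + q - 1)) hc') j j' := by
  have hpq' : (p : ℤ) + q = 2 * k := by exact_mod_cast hpq
  have hE'' : E' = fc C (m + q - 1) := by
    rw [hE']
    refine fc_par ?_
    have : m + (p : ℤ) - 1 + (m + q - 1) = 2 * (m + k - 1) := by linear_combination hpq'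
    rw [this]
    exact even_two_mul _
  have refl_fc : ∀ i : ℤ, fc C (2 * m + 2 * k - 1 - (i + 1)) = fc C i := fun i => fc_par (by
    have : 2 * m + 2 * (k : ℤ) - 1 - (i + 1) + i = 2 * (m + k - 1) := by ring
    rw [this]
    exact even_two_mul _)
  obtain ⟨j, hj⟩ := h.lift S s fun i h1 h2 c hc => hs.rel i h1 (by omega) c hc
  obtain ⟨j', hj'⟩ := h'.lift S (fun i => s (2 * m + 2 * k - 1 - i)) (by
    intro i h1 h2 c hc
    have h3 := hs.rel (2 * m + 2 * k - 1 - (i + 1)) (by omega) (by omega) c (by rw [refl_fc]; exact hc)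
    have h4 : 2 * m + 2 * (k : ℤ) - 1 - (i + 1) + 1 = 2 * m + 2 * k - 1 - i := by ring
    rw [h4] at h3
    exact h3.symm)
  refine ⟨j, j', ?_, ?_, ?_⟩
  · refine hom_ext_of_gen' (j := poL _ _) (j' := poR _ _) isPush_po.gen (fun c => ?_) fun c => ?_
    · show j (bd e e' (t m) (t (m + p - 1)) hc _) = j' (bd e e' (t' m) (t' (m + q - 1)) hc' _)
      rw [bd_poL, bd_poL, hj m le_rfl (by omega), hj' m le_rfl (by omega)]
      have h3 := hs.rel' c (hE ▸ c.2)
      have h4 : 2 * m + 2 * (k : ℤ) - 1 - m = m + 2 * k - 1 := by ring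
      rw [h4]
      exact h3.symm
    · show j (bd e e' (t m) (t (m + p - 1)) hc _) = j' (bd e e' (t' m) (t' (m + q - 1)) hc' _)
      rw [bd_poR, bd_poR, hj _ (by omega) (by omega), hj' _ (by omega) (by omega)]
      have h3 := hs.rel (m + p - 1) (by omega) (by omega) c (hE' ▸ c.2)
      have h4 : 2 * m + 2 * (k : ℤ) - 1 - (m + q - 1) = m + p - 1 + 1 := by omega
      rw [h4]
      exact h3
  · refine hs.top _ fun i h1 h2 a => ?_
    by_cases h3 : i < m + p
    · rw [← hj i h1 h3]
      exact Subgroup.subset_closure (Or.inl ⟨_, rfl⟩)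
    · have h4 := hj' (2 * m + 2 * k - 1 - i) (by omega) (by omega) a
      have h5 : 2 * m + 2 * (k : ℤ) - 1 - (2 * m + 2 * k - 1 - i) = i := by ring
      rw [h5] at h4
      rw [← h4]
      exact Subgroup.subset_closure (Or.inr ⟨_, rfl⟩)
  · intro X _ f f' hff
    have hL : ∀ c ∈ E, f (t m c) = f' (t' m c) := by
      intro c hcE
      have h1 := DFunLike.congr_fun hff (poL _ _ (⟨c, hcE⟩ : E))
      have h2 : f (bd e e' (t m) (t (m + p - 1)) hc (poL _ _ (⟨c, hcE⟩ : E))) =
        f' (bd e e' (t' m) (t' (m + q - 1)) hc' (poL _ _ (⟨c, hcE⟩ : E))) := h1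
      rw [bd_poL, bd_poL] at h2
      exact h2
    have hR : ∀ c ∈ E', f (t (m + p - 1) c) = f' (t' (m + q - 1) c) := by
      intro c hcE
      have h1 := DFunLike.congr_fun hff (poR _ _ (⟨c, hcE⟩ : E'))
      have h2 : f (bd e e' (t m) (t (m + p - 1)) hc (poR _ _ (⟨c, hcE⟩ : E'))) =
        f' (bd e e' (t' m) (t' (m + q - 1)) hc' (poR _ _ (⟨c, hcE⟩ : E'))) := h1
      rw [bd_poR, bd_poR] at h2
      exact h2
    obtain ⟨F, hF⟩ := hs.lift X (fun i => if i < m + p then f.comp (t i) else f'.comp (t' (2 * m + 2 * k - 1 - i))) (by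
      intro i h1 h2 c hcc
      show (if i < m + p then f.comp (t i) else f'.comp (t' (2 * m + 2 * k - 1 - i))) c =
        (if i + 1 < m + p then f.comp (t (i + 1)) else f'.comp (t' (2 * m + 2 * k - 1 - (i + 1)))) c
      rcases lt_trichotomy (i + 1) (m + p) with h3 | h3 | h3
      · rw [if_pos (by omega), if_pos h3]
        exact congrArg f (h.rel i h1 h3 c hcc)
      · rw [if_pos (by omega), if_neg (by omega)]
        have h4 : i = m + p - 1 := by omega
        subst h4
        have h5 := hR c (hE' ▸ hcc)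
        have h6 : 2 * m + 2 * (k : ℤ) - 1 - (m + p - 1 + 1) = m + q - 1 := by omega
        rw [h6]
        exact h5
      · rw [if_neg (by omega), if_neg (by omega)]
        have h5 := h'.rel (2 * m + 2 * k - 1 - (i + 1)) (by omega) (by omega) c (by rw [refl_fc]; exact hcc)
        have h6 : 2 * m + 2 * (k : ℤ) - 1 - (i + 1) + 1 = 2 * m + 2 * k - 1 - i := by ring
        rw [h6] at h5
        exact congrArg f' h5.symm) (by
      intro c hcc
      show (if m + 2 * (k : ℤ) - 1 < m + p then f.comp (t (m + 2 * k - 1)) else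
        f'.comp (t' (2 * m + 2 * k - 1 - (m + 2 * k - 1)))) c =
        (if m < m + p then f.comp (t m) else f'.comp (t' (2 * m + 2 * k - 1 - m))) c
      rw [if_neg (by omega), if_pos (by omega)]
      have h6 : 2 * m + 2 * (k : ℤ) - 1 - (m + 2 * k - 1) = m := by ring
      rw [h6]
      exact (hL c (hE ▸ hcc)).symm)
    refine ⟨F, h.hom_ext fun i h1 h2 a => ?_, h'.hom_ext fun i h1 h2 a => ?_⟩
    · show F (j (t i a)) = f (t i a)
      rw [hj i h1 h2, hF i h1 (by omega), if_pos h2]
      rfl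
    · show F (j' (t' i a)) = f' (t' i a)
      rw [hj' i h1 h2, hF (2 * m + 2 * k - 1 - i) (by omega) (by omega), if_neg (by omega)]
      have h6 : 2 * m + 2 * (k : ℤ) - 1 - (2 * m + 2 * k - 1 - i) = i := by ring
      rw [h6]
      rfl

end

end ConeA
end Singer
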