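import Pool.Agent.Singer.ConeA.Seq
import Pool.Agent.Singer.ConeA.Inj

/-!
# Singer, cone angles: rows as amalgamated products

* `IsRow C m p t`: the universal property of the row `m, ..., m + p - 1` with the copies `t i`;
* `IsRow.shift`, `IsRow.refl`: shifts and reflections of rows;
* `row_push`: a row is the amalgamated product of its two parts;
* `IsRow.inj`: the copies of `A` inject;
* `IsRow.bd_inj`: the two ends of a row of length at least 2 generate their amalgamated product over `co C`.
-/

set_option autoImplicit false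
set_option linter.unusedSectionVars false
set_option linter.unusedVariables false

namespace Singer
namespace ConeA

universe u

open Monoid

variable {A : Type u} [Group A] {C : Bool → Subgroup A}

/-- the universal property of a row -/
structure IsRow (C : Bool → Subgroup A) (m : ℤ) (p : ℕ) {T : Type u} [Group T] (t : ℤ → A →* T) : Prop where
  rel : ∀ i, m ≤ i → i + 1 < m + p → ∀ c ∈ fc C i, t i c = t (i + 1) c
  top : ∀ K : Subgroup T, (∀ i, m ≤ i → i < m + p → ∀ a, t i a ∈ K) → K = ⊤
  lift : ∀ (X : Type u) [Group X] (f : ℤ → A →* X),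
    (∀ i, m ≤ i → i + 1 < m + p → ∀ c ∈ fc C i, f i c = f (i + 1) c) →
      ∃ F : T →* X, ∀ i, m ≤ i → i < m + p → ∀ a, F (t i a) = f i a

theorem isRow_row {m : ℤ} {p : ℕ} (hp : 1 ≤ p) : IsRow C m p (rof C m p) where
  rel i h1 h2 c hc := rof_rel h1 h2 hc
  top K h := row_top hp h
  lift X _ f h := ⟨rowHom m p hp f h, fun i h1 h2 a => rowHom_of h1 h2 a⟩

section
variable {m : ℤ} {p : ℕ} {T : Type u} [Group T] {t : ℤ → A →* T}

lemma IsRow.hom_ext (h : IsRow C m p t) {X : Type*} [Group X] {F F' : T →* X}
    (h1 : ∀ i, m ≤ i → i < m + p → ∀ a, F (t i a) = F' (t i a)) : F = F' := by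
  have h3 : F.eqLocus F' = ⊤ := h.top _ h1
  refine MonoidHom.ext fun x => ?_
  have h4 : x ∈ F.eqLocus F' := by
    rw [h3]
    trivial
  exact h4

/-- the elements of `co C` are the same in all the copies -/
lemma IsRow.co_eq (h : IsRow C m p t) {i i' : ℤ} (h1 : m ≤ i) (h2 : i < m + p) (h1' : m ≤ i') (h2' : i' < m + p)
    {c : A} (hc : c ∈ co C) : t i c = t i' c := by
  have key : ∀ (n : ℕ) (s : ℤ), m ≤ s → s + n < m + p → t s c = t (s + n) c := by
    intro n
    induction n with
    | zero =>
      intro s _ _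
      rw [Nat.cast_zero, add_zero]
    | succ n ih =>
      intro s h3 h4
      rw [ih s h3 (by push_cast at h4; omega), h.rel (s + n) (by omega) (by push_cast at h4; omega) c
        (co_le_fc C _ hc)]
      congr 2
      push_cast
      ring
  rcases le_total i i' with hh | hh
  · obtain ⟨n, rfl⟩ := Int.le.dest hh
    exact key n i h1 h2'
  · obtain ⟨n, rfl⟩ := Int.le.dest hh
    exact (key n i' h1' h2).symm

lemma fc_par {i i' : ℤ} (h : Even (i + i')) : fc C i = fc C i' := fc_congr C (by rw [Int.even_add] at h; exact h)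

/-- shifts -/
lemma IsRow.shift (h : IsRow C m p t) (m' : ℤ) (hm : Even (m + m')) : IsRow C m' p fun i => t (i - m' + m) where
  rel i h1 h2 c hc := by
    have h3 : fc C i = fc C (i - m' + m) := fc_par (by
      have : i + (i - m' + m) = 2 * (i - m') + (m + m') := by ring
      rw [this]
      exact (even_two_mul _).add hm)
    have h4 := h.rel (i - m' + m) (by omega) (by omega) c (h3 ▸ hc)
    have h5 : i + 1 - m' + m = i - m' + m + 1 := by ring
    show t (i - m' + m) c = t (i + 1 - m' + m) c
    rw [h5]
    exact h4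
  top K hK := h.top K fun i h1 h2 a => by
    have h3 := hK (i - m + m') (by omega) (by omega) a
    have h4 : i - m + m' - m' + m = i := by ring
    rw [h4] at h3
    exact h3
  lift X _ f hf := by
    obtain ⟨F, hF⟩ := h.lift X (fun i => f (i - m + m')) (by
      intro i h1 h2 c hc
      have h3 : fc C i = fc C (i - m + m') := fc_par (by
        have : i + (i - m + m') = 2 * (i - m) + (m + m') := by ring
        rw [this]
        exact (even_two_mul _).add hm)
      have h4 := hf (i - m + m') (by omega) (by omega) c (h3 ▸ hc)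
      have h5 : i + 1 - m + m' = i - m + m' + 1 := by ring
      show f (i - m + m') c = f (i + 1 - m + m') c
      rw [h5]
      exact h4)
    refine ⟨F, fun i h1 h2 a => ?_⟩
    have h3 := hF (i - m' + m) (by omega) (by omega) a
    have h4 : i - m' + m - m + m' = i := by ring
    rw [h4] at h3
    exact h3

/-- reflections -/
lemma IsRow.refl (h : IsRow C m p t) (m' : ℤ) (hm : Even (m + m' + p)) :
    IsRow C m' p fun i => t (m + m' + p - 1 - i) where
  rel i h1 h2 c hc := by
    have h3 : fc C i = fc C (m + m' + p - 1 - (i + 1)) := fc_par (by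
      have : i + (m + m' + p - 1 - (i + 1)) = (m + m' + p) - 2 := by ring
      rw [this]
      exact hm.sub even_two)
    have h4 := h.rel (m + m' + p - 1 - (i + 1)) (by omega) (by omega) c (h3 ▸ hc)
    have h5 : m + m' + p - 1 - (i + 1) + 1 = m + m' + p - 1 - i := by ring
    rw [h5] at h4
    exact h4.symm
  top K hK := h.top K fun i h1 h2 a => by
    have h3 := hK (m + m' + p - 1 - i) (by omega) (by omega) a
    have h4 : m + m' + p - 1 - (m + m' + p - 1 - i) = i := by ring
    rw [h4] at h3
    exact h3
  lift X _ f hf := by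
    obtain ⟨F, hF⟩ := h.lift X (fun i => f (m + m' + p - 1 - i)) (by
      intro i h1 h2 c hc
      have h3 : fc C i = fc C (m + m' + p - 1 - (i + 1)) := fc_par (by
        have : i + (m + m' + p - 1 - (i + 1)) = (m + m' + p) - 2 := by ring
        rw [this]
        exact hm.sub even_two)
      have h4 := hf (m + m' + p - 1 - (i + 1)) (by omega) (by omega) c (h3 ▸ hc)
      have h5 : m + m' + p - 1 - (i + 1) + 1 = m + m' + p - 1 - i := by ring
      rw [h5] at h4
      exact h4.symm)
    refine ⟨F, fun i h1 h2 a => ?_⟩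
    have h3 := hF (m + m' + p - 1 - i) (by omega) (by omega) a
    have h4 : m + m' + p - 1 - (m + m' + p - 1 - i) = i := by ring
    rw [h4] at h3
    exact h3

/-- a row of length one -/
lemma isRow_one (m : ℤ) : IsRow C m 1 fun _ => MonoidHom.id A where
  rel i h1 h2 := by omega
  top K h := by
    rw [eq_top_iff]
    intro x _
    exact h m le_rfl (by push_cast; omega) x
  lift X _ f _ := ⟨f m, fun i h1 h2 a => by
    have : i = m := by push_cast at h2; omega
    rw [this]
    rfl⟩

end

/-! ### rows as amalgamated products -/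

section push

theorem row_push {m : ℤ} {p q : ℕ} (hp : 1 ≤ p) (hq : 1 ≤ q) {T T' S : Type u} [Group T] [Group T'] [Group S]
    {t : ℤ → A →* T} {t' : ℤ → A →* T'} {s : ℤ → A →* S} (h : IsRow C m p t) (h' : IsRow C (m + p) q t')
    (hs : IsRow C m (p + q) s) {E : Subgroup A} (hE : E = fc C (m + p - 1)) :
    ∃ (j : T →* S) (j' : T' →* S), (∀ i, m ≤ i → i < m + p → ∀ a, j (t i a) = s i a) ∧
      (∀ i, m + p ≤ i → i < m + p + q → ∀ a, j' (t' i a) = s i a) ∧
      IsPush ((t (m + p - 1)).comp E.subtype) ((t' (m + p)).comp E.subtype) j j' := by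
  subst hE
  obtain ⟨j, hj⟩ := h.lift S s fun i h1 h2 c hc => hs.rel i h1 (by push_cast; omega) c hc
  obtain ⟨j', hj'⟩ := h'.lift S s fun i h1 h2 c hc => hs.rel i (by omega) (by push_cast; omega) c hc
  refine ⟨j, j', hj, hj', ?_, ?_, ?_⟩
  · refine MonoidHom.ext fun c => ?_
    show j (t (m + p - 1) c) = j' (t' (m + p) c)
    rw [hj _ (by omega) (by omega), hj' _ le_rfl (by omega), hs.rel (m + p - 1) (by omega) (by push_cast; omega) c c.2]
    congr 2
    ring
  · refine hs.top _ fun i h1 h2 a => ?_
    by_cases h3 : i < m + p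
    · rw [← hj i h1 h3]
      exact Subgroup.subset_closure (Or.inl ⟨_, rfl⟩)
    · push_cast at h2
      rw [← hj' i (by omega) (by omega)]
      exact Subgroup.subset_closure (Or.inr ⟨_, rfl⟩)
  · intro X _ f f' hff
    obtain ⟨F, hF⟩ := hs.lift X (fun i => if i < m + p then f.comp (t i) else f'.comp (t' i)) (by
      intro i h1 h2 c hc
      push_cast at h2
      show (if i < m + p then f.comp (t i) else f'.comp (t' i)) c =
        (if i + 1 < m + p then f.comp (t (i + 1)) else f'.comp (t' (i + 1))) c
      rcases lt_trichotomy (i + 1) (m + p) with h3 | h3 | h3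
      · rw [if_pos (by omega), if_pos h3]
        exact congrArg f (h.rel i h1 h3 c hc)
      · rw [if_pos (by omega), if_neg (by omega)]
        have h4 : i = m + p - 1 := by omega
        subst h4
        have h5 := DFunLike.congr_fun hff ⟨c, hc⟩
        have h6 : m + (p : ℤ) - 1 + 1 = m + p := by ring
        rw [h6]
        exact h5
      · rw [if_neg (by omega), if_neg (by omega)]
        exact congrArg f' (h'.rel i (by omega) (by omega) c hc))
    refine ⟨F, h.hom_ext fun i h1 h2 a => ?_, h'.hom_ext fun i h1 h2 a => ?_⟩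
    · show F (j (t i a)) = f (t i a)
      rw [hj i h1 h2, hF i h1 (by push_cast; omega), if_pos h2]
      rfl
    · show F (j' (t' i a)) = f' (t' i a)
      rw [hj' i h1 h2, hF i (by omega) (by push_cast; omega), if_neg (by omega)]
      rfl

end push

/-! ### the two ends -/

/-- the amalgamated product of two faces -/
abbrev Bd (C : Bool → Subgroup A) {E E' : Subgroup A} (hE : co C ≤ E) (hE' : co C ≤ E') : Type u :=
  PO (Subgroup.inclusion hE) (Subgroup.inclusion hE')

/-- the homomorphism given by two copies -/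
noncomputable def bd {E E' : Subgroup A} (hE : co C ≤ E) (hE' : co C ≤ E') {T : Type u} [Group T] (f f' : A →* T)
    (h : ∀ c ∈ co C, f c = f' c) : Bd C hE hE' →* T :=
  poLift (f.comp E.subtype) (f'.comp E'.subtype) (MonoidHom.ext fun c => h c c.2)

lemma bd_poL {E E' : Subgroup A} (hE : co C ≤ E) (hE' : co C ≤ E') {T : Type u} [Group T] {f f' : A →* T}
    (h : ∀ c ∈ co C, f c = f' c) (c : E) : bd hE hE' f f' h (poL _ _ c) = f c := poLift_poL _ _ _ _

lemma bd_poR {E E' : Subgroup A} (hE : co C ≤ E) (hE' : co C ≤ E') {T : Type u} [Group T] {f f' : A →* T}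
    (h : ∀ c ∈ co C, f c = f' c) (c : E') : bd hE hE' f f' h (poR _ _ c) = f' c := poLift_poR _ _ _ _

lemma poL_injective {D X Y : Type u} [Group D] [Group X] [Group Y] {φ : D →* X} {φ' : D →* Y}
    (hφ : Function.Injective φ) (hφ' : Function.Injective φ') : Function.Injective (poL φ φ') := (amal_po hφ hφ').hj

lemma poR_injective {D X Y : Type u} [Group D] [Group X] [Group Y] {φ : D →* X} {φ' : D →* Y}
    (hφ : Function.Injective φ) (hφ' : Function.Injective φ') : Function.Injective (poR φ φ') := (amal_po hφ hφ').hj'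

/-- the intersection of the two factors -/
lemma po_inter' {D X Y : Type u} [Group D] [Group X] [Group Y] {φ : D →* X} {φ' : D →* Y}
    (hφ : Function.Injective φ) (hφ' : Function.Injective φ') {x : X} {y : Y} (h : poL φ φ' x = poR φ φ' y) :
    ∃ d, φ d = x ∧ φ' d = y := by
  have h1 := PushoutI.inf_of_range_eq_base_range (φ := famHom φ φ') (famHom_injective hφ hφ') (i := true)
    (j := false) (by decide)
  have h2 : poL φ φ' x ∈ (PushoutI.of (φ := famHom φ φ') true).range ⊓
      (PushoutI.of (φ := famHom φ φ') false).range := ⟨⟨x, rfl⟩, ⟨y, h.symm⟩⟩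
  rw [h1] at h2
  obtain ⟨d, hd⟩ := h2
  refine ⟨d, poL_injective hφ hφ' ?_, poR_injective hφ hφ' ?_⟩
  · rw [poL_apply, hd]
  · rw [poR_apply, hd, h]

section inj

/-- the copies in a row inject; the two ends meet in `co C`; they generate their amalgamated product -/
theorem row_inj_aux (m : ℤ) (p : ℕ) (hp : 1 ≤ p) : ∀ (T : Type u) [Group T] (t : ℤ → A →* T) (h : IsRow C m p t),
    (∀ i, m ≤ i → i < m + p → Function.Injective (t i)) ∧
    (∀ x ∈ fc C (m - 1), ∀ c ∈ fc C (m + p - 1), t m x = t (m + p - 1) c → x ∈ co C) ∧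
    (2 ≤ p → Function.Injective (bd (co_le_fc C (m - 1)) (co_le_fc C (m + p - 1)) (t m) (t (m + p - 1))
      fun c hc => h.co_eq le_rfl (by omega) (by omega) (by omega) hc)) := by
  induction p, hp using Nat.le_induction with
  | base =>
    intro T _ t h
    have h0 : Function.Injective (t m) := by
      obtain ⟨F, hF⟩ := h.lift A (fun _ => MonoidHom.id A) fun _ _ _ _ _ => rfl
      intro a b hab
      have h1 := hF m le_rfl (by push_cast; omega) a
      have h2 := hF m le_rfl (by push_cast; omega) b
      rw [hab] at h1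
      exact h1.symm.trans h2
    refine ⟨?_, ?_, fun h2 => absurd h2 (by norm_num)⟩
    · intro i h1 h2
      have : i = m := by push_cast at h2; omega
      rw [this]
      exact h0
    · intro x hx c hc hxc
      have h1 : m + ((1 : ℕ) : ℤ) - 1 = m := by push_cast; ring
      rw [h1] at hc hxc
      have h2 := h0 hxc
      subst h2
      exact mem_co C hx (by
        have : m - 1 + 1 = m := by ring
        rw [this]
        exact hc)
  | succ p hp ih =>
    intro S _ s hs
    have hT := isRow_row (C := C) (m := m) hp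
    obtain ⟨ih1, ih2, -⟩ := ih _ _ hT
    have hA : IsRow C (m + p) 1 fun _ => MonoidHom.id A := isRow_one _
    obtain ⟨j, j', hj, hj', hP⟩ := row_push hp le_rfl hT hA hs rfl
    have i1 : Function.Injective ((rof C m p (m + p - 1)).comp (fc C (m + p - 1)).subtype) :=
      (ih1 _ (by omega) (by omega)).comp Subtype.val_injective
    have i2 : Function.Injective ((MonoidHom.id A).comp (fc C (m + p - 1)).subtype) := Subtype.val_injective
    have hAm := hP.amal i1 i2
    have c1 : ∀ i, m ≤ i → i < m + ((p + 1 : ℕ) : ℤ) → Function.Injective (s i) := by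
      intro i h1 h2
      by_cases h3 : i < m + p
      · have h4 : s i = j.comp (rof C m p i) := MonoidHom.ext fun a => (hj i h1 h3 a).symm
        rw [h4]
        exact hAm.hj.comp (ih1 i h1 h3)
      · push_cast at h2
        have h4 : s i = j' := MonoidHom.ext fun a => (hj' i (by omega) (by push_cast; omega) a).symm
        rw [h4]
        exact hAm.hj'
    have e1 : m + ((p + 1 : ℕ) : ℤ) - 1 = m + p := by push_cast; ring
    have hcc : ∀ c ∈ co C, s m c = s (m + ((p + 1 : ℕ) : ℤ) - 1) c :=
      fun c hc => hs.co_eq le_rfl (by push_cast; omega) (by push_cast; omega) (by push_cast; omega) hc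
    have c3 : Function.Injective (bd (co_le_fc C (m - 1)) (co_le_fc C (m + ((p + 1 : ℕ) : ℤ) - 1)) (s m)
        (s (m + ((p + 1 : ℕ) : ℤ) - 1)) hcc) := by
      refine (Pool.Agent.Singer.ConeA.push_injective
        (Subgroup.inclusion (co_le_fc C (m - 1))) (Subgroup.inclusion (co_le_fc C (m + ((p + 1 : ℕ) : ℤ) - 1)))
        ((rof C m p (m + p - 1)).comp (fc C (m + p - 1)).subtype)
        ((MonoidHom.id A).comp (fc C (m + p - 1)).subtype)
        (Subgroup.inclusion (co_le_fc C (m + p - 1)))
        ((rof C m p m).comp (fc C (m - 1)).subtype) (fc C (m + ((p + 1 : ℕ) : ℤ) - 1)).subtype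
        (Subgroup.inclusion_injective _) (Subgroup.inclusion_injective _) i1 i2 (Subgroup.inclusion_injective _)
        ((ih1 m le_rfl (by omega)).comp Subtype.val_injective) Subtype.val_injective ?_ ?_ ?_
        (poL _ _) (poR _ _) po_comm isPush_po.gen j j' hP.lift _ ?_ ?_).1
      · intro x c hxc
        exact ⟨⟨x, ih2 x x.2 c c.2 hxc⟩, rfl⟩
      · intro y c hyc
        have h1 : (y : A) = c := hyc
        refine ⟨⟨y, mem_co C (i := m + p - 1) ?_ ?_⟩, rfl⟩
        · rw [h1]
          exact c.2
        · have h2 : m + (p : ℤ) - 1 + 1 = m + ((p + 1 : ℕ) : ℤ) - 1 := by push_cast; ring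
          rw [h2]
          exact y.2
      · exact MonoidHom.ext fun c => hT.co_eq le_rfl (by omega) (by omega) (by omega) c.2
      · refine MonoidHom.ext fun x => ?_
        exact (bd_poL (co_le_fc C (m - 1)) (co_le_fc C (m + ((p + 1 : ℕ) : ℤ) - 1)) hcc x).trans
          (hj m le_rfl (by omega) x).symm
      · refine MonoidHom.ext fun x => ?_
        exact (bd_poR (co_le_fc C (m - 1)) (co_le_fc C (m + ((p + 1 : ℕ) : ℤ) - 1)) hcc x).trans
          (hj' _ (by push_cast; omega) (by push_cast; omega) (x : A)).symm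
    refine ⟨c1, ?_, fun _ => c3⟩
    intro x hx c hc hxc
    have h1 : poL (Subgroup.inclusion (co_le_fc C (m - 1)))
        (Subgroup.inclusion (co_le_fc C (m + ((p + 1 : ℕ) : ℤ) - 1))) ⟨x, hx⟩ = poR _ _ ⟨c, hc⟩ := by
      refine c3 ?_
      rw [bd_poL, bd_poR]
      exact hxc
    obtain ⟨d, hd, -⟩ := po_inter' (Subgroup.inclusion_injective _) (Subgroup.inclusion_injective _) h1
    have h2 : (d : A) = x := congrArg Subtype.val hd
    rw [← h2]
    exact d.2

variable {m : ℤ} {p : ℕ} {T : Type u} [Group T] {t : ℤ → A →* T}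

theorem IsRow.inj (h : IsRow C m p t) (hp : 1 ≤ p) {i : ℤ} (h1 : m ≤ i) (h2 : i < m + p) :
    Function.Injective (t i) := (row_inj_aux m p hp T t h).1 i h1 h2

theorem IsRow.bd_inj (h : IsRow C m p t) (hp : 2 ≤ p) : Function.Injective (bd (co_le_fc C (m - 1))
    (co_le_fc C (m + p - 1)) (t m) (t (m + p - 1))
      fun c hc => h.co_eq le_rfl (by omega) (by omega) (by omega) hc) :=
  (row_inj_aux m p (by omega) T t h).2.2 hp

/-- all rows have resolutions -/
theorem IsRow.res (hA : Nonempty (Res.{0} A)) (hC : ∀ b, Nonempty (Res.{0} (C b))) (hp : 1 ≤ p) :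
    ∀ (m : ℤ) (T : Type u) [Group T] (t : ℤ → A →* T), IsRow C m p t → Nonempty (Res.{0} T) := by
  induction p, hp using Nat.le_induction with
  | base =>
    intro m T _ t h
    have hP : IsPush (MonoidHom.id (C true)) (C true).subtype ((t m).comp (C true).subtype) (t m) := by
      refine ⟨rfl, ?_, ?_⟩
      · refine h.top _ fun i h1 h2 a => ?_
        have : i = m := by push_cast at h2; omega
        rw [this]
        exact Subgroup.subset_closure (Or.inr ⟨a, rfl⟩)
      · intro X _ f f' hff
        obtain ⟨F, hF⟩ := h.lift X (fun _ => f') fun _ _ _ _ _ => rfl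
        have h1 : F.comp (t m) = f' := MonoidHom.ext fun a => hF m le_rfl (by push_cast; omega) a
        refine ⟨F, ?_, h1⟩
        rw [← MonoidHom.comp_assoc, h1]
        exact hff.symm
    exact amal_res (hP.amal (fun _ _ h => h) Subtype.val_injective) (hC true) (hC true) hA
  | succ p hp ih =>
    intro m S _ s hs
    have hT := isRow_row (C := C) (m := m) hp
    have hAr : IsRow C (m + p) 1 fun _ => MonoidHom.id A := isRow_one _
    obtain ⟨j, j', hj, hj', hP⟩ := row_push hp le_rfl hT hAr hs rfl
    exact amal_res (hP.amal ((hT.inj hp (by omega) (by omega)).comp Subtype.val_injective) Subtype.val_injective)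
      (hC _) (ih m _ _ hT) hA

end inj

end ConeA
end Singer
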