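import Pool.Agent.Singer.ConeA.Push

/-!
# Singer, cone angles: copies of a group amalgamated along subgroups, rows and rings

* `Sq I l` : copies `A_i` of `A` for `i : I`; the copies `A_i`, `A_(i+1)` are amalgamated along `l i`;
* `fc C i` : the subgroup `C true` for even `i`, `C false` for odd `i`;
* `Row C m p` : the copies `A_m, ..., A_(m+p-1)`, the copies `A_i` and `A_(i+1)` amalgamated along `fc C i`;
* `Ring C k` : `2k` copies in a cycle.
-/

set_option autoImplicit false
set_option linter.unusedSectionVars false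
set_option linter.unusedVariables false

namespace Singer
namespace ConeA

universe u

open Monoid

/-! ### copies of a group -/

section sq
variable {A : Type u} [Group A]

/-- the relations -/
def sqRels (I : Type) [AddMonoidWithOne I] (l : I → Subgroup A) : Set (CoprodI fun _ : I => A) :=
  {x | ∃ i, ∃ c ∈ l i, x = CoprodI.of (M := fun _ : I => A) (i := i) c *
    (CoprodI.of (M := fun _ : I => A) (i := i + 1) c)⁻¹}

/-- copies of `A` for the elements of `I`; the copies for `i` and `i + 1` are amalgamated along `l i` -/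
abbrev Sq (I : Type) [AddMonoidWithOne I] (l : I → Subgroup A) : Type u :=
  (CoprodI fun _ : I => A) ⧸ Subgroup.normalClosure (sqRels I l)

variable {I : Type} [AddMonoidWithOne I] {l : I → Subgroup A}

/-- the copy `i` -/
def sqOf (l : I → Subgroup A) (i : I) : A →* Sq I l :=
  (QuotientGroup.mk' (Subgroup.normalClosure (sqRels I l))).comp (CoprodI.of (M := fun _ : I => A) (i := i))

lemma sqOf_rel {i : I} {c : A} (hc : c ∈ l i) : sqOf l i c = sqOf l (i + 1) c := by
  have h1 : CoprodI.of (M := fun _ : I => A) (i := i) c * (CoprodI.of (M := fun _ : I => A) (i := i + 1) c)⁻¹ ∈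
      Subgroup.normalClosure (sqRels I l) := Subgroup.subset_normalClosure ⟨i, c, hc, rfl⟩
  have h2 := (QuotientGroup.eq_one_iff _).2 h1
  have h3 : sqOf l i c * (sqOf l (i + 1) c)⁻¹ = 1 := h2
  exact mul_inv_eq_one.1 h3

/-- homomorphisms out of `Sq I l` -/
def sqLift {X : Type*} [Group X] (f : I → A →* X) (h : ∀ i, ∀ c ∈ l i, f i c = f (i + 1) c) : Sq I l →* X :=
  QuotientGroup.lift _ (CoprodI.lift f) (by
    intro x hx
    have h1 : Subgroup.normalClosure (sqRels I l) ≤ (CoprodI.lift f).ker := by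
      refine Subgroup.normalClosure_le_normal ?_
      rintro _ ⟨i, c, hc, rfl⟩
      show CoprodI.lift f _ = 1
      rw [map_mul, map_inv, CoprodI.lift_of, CoprodI.lift_of, h i c hc, mul_inv_cancel]
    exact h1 hx)

@[simp] lemma sqLift_of {X : Type*} [Group X] (f : I → A →* X) (h : ∀ i, ∀ c ∈ l i, f i c = f (i + 1) c) (i : I)
    (a : A) : sqLift f h (sqOf l i a) = f i a := by
  show CoprodI.lift f (CoprodI.of a) = f i a
  rw [CoprodI.lift_of]

lemma sq_closure : Subgroup.closure (⋃ i, ((sqOf l i).range : Set (Sq I l))) = ⊤ := by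
  rw [eq_top_iff]
  intro x _
  obtain ⟨w, rfl⟩ := QuotientGroup.mk'_surjective _ x
  induction w using CoprodI.induction_on with
  | one =>
    rw [map_one]
    exact Subgroup.one_mem _
  | of i a => exact Subgroup.subset_closure (Set.mem_iUnion.2 ⟨i, a, rfl⟩)
  | mul x y hx hy =>
    rw [map_mul]
    exact Subgroup.mul_mem _ (hx trivial) (hy trivial)

lemma sq_hom_ext {X : Type*} [Group X] {F F' : Sq I l →* X} (h : ∀ i a, F (sqOf l i a) = F' (sqOf l i a)) :
    F = F' := by
  have h3 : F.eqLocus F' = ⊤ := by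
    rw [eq_top_iff, ← sq_closure, Subgroup.closure_le]
    intro x hx
    obtain ⟨i, a, rfl⟩ := Set.mem_iUnion.1 hx
    exact h i a
  refine MonoidHom.ext fun x => ?_
  have h4 : x ∈ F.eqLocus F' := by
    rw [h3]
    trivial
  exact h4

end sq

section line
variable {A : Type u} [Group A] {l : ℤ → Subgroup A}

/-- an element of all the subgroups between two places is the same in the two copies -/
lemma sq_chain {c : A} (s : ℤ) (n : ℕ) (h : ∀ i, s ≤ i → i < s + n → c ∈ l i) : sqOf l s c = sqOf l (s + n) c := by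
  induction n with
  | zero => rw [Nat.cast_zero, add_zero]
  | succ n ih =>
    rw [ih fun i h1 h2 => h i h1 (by push_cast; omega), sqOf_rel (h (s + n) (by omega) (by push_cast; omega))]
    congr 2
    push_cast
    ring

lemma sq_chain' {c : A} {s t : ℤ} (hst : s ≤ t) (h : ∀ i, s ≤ i → i < t → c ∈ l i) : sqOf l s c = sqOf l t c := by
  obtain ⟨n, rfl⟩ := Int.le.dest hst
  exact sq_chain s n h

end line

/-! ### faces -/

section face
variable {A : Type u} [Group A] (C : Bool → Subgroup A)

/-- the subgroup along which the copies `i` and `i + 1` are amalgamated -/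
def fc (i : ℤ) : Subgroup A := C (decide (Even i))

lemma fc_congr {i i' : ℤ} (h : Even i ↔ Even i') : fc C i = fc C i' := by
  unfold fc
  rw [decide_eq_decide.2 h]

/-- the common subgroup of the faces -/
def co : Subgroup A := C true ⊓ C false

lemma co_le_fc (i : ℤ) : co C ≤ fc C i := by
  unfold fc co
  cases decide (Even i) with
  | true => exact inf_le_left
  | false => exact inf_le_right

lemma mem_co {c : A} {i : ℤ} (h1 : c ∈ fc C i) (h2 : c ∈ fc C (i + 1)) : c ∈ co C := by
  unfold fc at h1 h2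
  unfold co
  by_cases h : Even i
  · have h' : ¬ Even (i + 1) := by
      rw [Int.even_add_one]
      simpa using h
    rw [decide_eq_true h] at h1
    rw [decide_eq_false h'] at h2
    exact ⟨h1, h2⟩
  · have h' : Even (i + 1) := Int.even_add_one.2 h
    rw [decide_eq_false h] at h1
    rw [decide_eq_true h'] at h2
    exact ⟨h2, h1⟩

end face

/-! ### rows -/

section row
variable {A : Type u} [Group A] (C : Bool → Subgroup A)

/-- the subgroups along which the copies in a row are amalgamated -/
def lam (m : ℤ) (p : ℕ) (i : ℤ) : Subgroup A := if m ≤ i ∧ i + 1 < m + p then fc C i else ⊤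

/-- the row of the copies `m, ..., m + p - 1` -/
abbrev Row (m : ℤ) (p : ℕ) : Type u := Sq ℤ (lam C m p)

/-- the copy `i` in the row -/
abbrev rof (m : ℤ) (p : ℕ) (i : ℤ) : A →* Row C m p := sqOf (lam C m p) i

variable {C}

lemma lam_of {m : ℤ} {p : ℕ} {i : ℤ} (h1 : m ≤ i) (h2 : i + 1 < m + p) : lam C m p i = fc C i := if_pos ⟨h1, h2⟩

lemma mem_lam {m : ℤ} {p : ℕ} {i : ℤ} {c : A} (h : ¬ (m ≤ i ∧ i + 1 < m + p)) : c ∈ lam C m p i := by
  unfold lam
  rw [if_neg h]
  trivial

lemma co_le_lam {m : ℤ} {p : ℕ} {i : ℤ} : co C ≤ lam C m p i := by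
  unfold lam
  split_ifs
  · exact co_le_fc C i
  · exact le_top

/-- the place in the row -/
def clp (m : ℤ) (p : ℕ) (i : ℤ) : ℤ := max m (min i (m + p - 1))

lemma clp_of {m : ℤ} {p : ℕ} {i : ℤ} (h1 : m ≤ i) (h2 : i < m + p) : clp m p i = i := by
  unfold clp
  omega

lemma le_clp {m : ℤ} {p : ℕ} (i : ℤ) : m ≤ clp m p i := le_max_left _ _

lemma clp_lt {m : ℤ} {p : ℕ} (hp : 1 ≤ p) (i : ℤ) : clp m p i < m + p := by
  unfold clp
  omega

lemma rof_clp {m : ℤ} {p : ℕ} (hp : 1 ≤ p) (i : ℤ) (a : A) : rof C m p i a = rof C m p (clp m p i) a := by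
  rcases lt_or_ge i m with h | h
  · have h1 : clp m p i = m := by
      unfold clp
      omega
    rw [h1]
    exact sq_chain' h.le fun i' h2 h3 => mem_lam (by omega)
  · rcases lt_or_ge i (m + p) with h' | h'
    · rw [clp_of h h']
    · have h1 : clp m p i = m + p - 1 := by
        unfold clp
        omega
      rw [h1]
      exact (sq_chain' (by omega) fun i' h2 h3 => mem_lam (by omega)).symm

lemma rof_rel {m : ℤ} {p : ℕ} {i : ℤ} (h1 : m ≤ i) (h2 : i + 1 < m + p) {c : A} (hc : c ∈ fc C i) :
    rof C m p i c = rof C m p (i + 1) c := sqOf_rel (by rwa [lam_of h1 h2])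

lemma rof_co {m : ℤ} {p : ℕ} (i i' : ℤ) {c : A} (hc : c ∈ co C) : rof C m p i c = rof C m p i' c := by
  rcases le_total i i' with h | h
  · exact sq_chain' h fun _ _ _ => co_le_lam hc
  · exact (sq_chain' h fun _ _ _ => co_le_lam hc).symm

/-- homomorphisms out of a row -/
def rowHom {X : Type*} [Group X] (m : ℤ) (p : ℕ) (hp : 1 ≤ p) (f : ℤ → A →* X)
    (h : ∀ i, m ≤ i → i + 1 < m + p → ∀ c ∈ fc C i, f i c = f (i + 1) c) : Row C m p →* X :=
  sqLift (fun i => f (clp m p i)) (by
    intro i c hc
    by_cases h1 : m ≤ i ∧ i + 1 < m + p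
    · rw [lam_of h1.1 h1.2] at hc
      show f (clp m p i) c = f (clp m p (i + 1)) c
      rw [clp_of h1.1 (by omega), clp_of (by omega) h1.2]
      exact h i h1.1 h1.2 c hc
    · have h2 : clp m p i = clp m p (i + 1) := by
        unfold clp
        omega
      show f (clp m p i) c = f (clp m p (i + 1)) c
      rw [h2])

lemma rowHom_of {X : Type*} [Group X] {m : ℤ} {p : ℕ} {hp : 1 ≤ p} {f : ℤ → A →* X}
    {h : ∀ i, m ≤ i → i + 1 < m + p → ∀ c ∈ fc C i, f i c = f (i + 1) c} {i : ℤ} (h1 : m ≤ i) (h2 : i < m + p)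
    (a : A) : rowHom m p hp f h (rof C m p i a) = f i a := by
  have h3 := sqLift_of (l := lam C m p) (fun i => f (clp m p i)) (by
    intro i c hc
    by_cases h1 : m ≤ i ∧ i + 1 < m + p
    · rw [lam_of h1.1 h1.2] at hc
      show f (clp m p i) c = f (clp m p (i + 1)) c
      rw [clp_of h1.1 (by omega), clp_of (by omega) h1.2]
      exact h i h1.1 h1.2 c hc
    · have h2 : clp m p i = clp m p (i + 1) := by
        unfold clp
        omega
      show f (clp m p i) c = f (clp m p (i + 1)) c
      rw [h2]) i a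
  refine h3.trans ?_
  show f (clp m p i) a = f i a
  rw [clp_of h1 h2]

lemma row_hom_ext {X : Type*} [Group X] {m : ℤ} {p : ℕ} (hp : 1 ≤ p) {F F' : Row C m p →* X}
    (h : ∀ i, m ≤ i → i < m + p → ∀ a, F (rof C m p i a) = F' (rof C m p i a)) : F = F' := by
  refine sq_hom_ext fun i a => ?_
  have h1 := rof_clp (C := C) (m := m) hp i a
  have h2 := h (clp m p i) (le_clp i) (clp_lt hp i) a
  exact (congrArg F h1).trans (h2.trans (congrArg F' h1).symm)

/-- a subgroup of a row which contains all the copies is everything -/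
lemma row_top {m : ℤ} {p : ℕ} (hp : 1 ≤ p) {K : Subgroup (Row C m p)}
    (h : ∀ i, m ≤ i → i < m + p → ∀ a, rof C m p i a ∈ K) : K = ⊤ := by
  rw [eq_top_iff, ← sq_closure, Subgroup.closure_le]
  intro x hx
  obtain ⟨i, a, rfl⟩ := Set.mem_iUnion.1 hx
  have h1 := rof_clp (C := C) (m := m) hp i a
  show sqOf (lam C m p) i a ∈ K
  rw [h1]
  exact h _ (le_clp i) (clp_lt hp i) a

end row

end ConeA
end Singer
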