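import Pool.Agent.Singer.ConeA.Main

/-!
# The cone angle inequality for `ℓ²`-Betti numbers

`Ring C k`: `2k` copies `A_z` (`z : ZMod (2 * k)`) of a group `A`, where `A_z` and `A_(z+1)` are amalgamated along the
subgroup `C true` of `A` for even `z` and along `C false` for odd `z`.
-/

set_option autoImplicit false

universe u

/-- **Cone angle inequality.** Let `A` be a group with two subgroups `C true` and `C false`, `B` their intersection (all
of type `FP_∞`), and let `Γ_k = Ring C k` be the free product of `2k` copies of `A`, neighbours in the cyclic order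
being amalgamated alternately along `C true` and `C false`.  Let `1 ≤ j ≤ k`; for `j = 1` suppose that the
homomorphism from the amalgamated product of `C true` and `C false` over `B` to `A` is injective.  Then
`j b_i(Γ_k) ≤ k b_i(Γ_j) + (k - j) b_(i-1)(B)` for all `i` (without the last term for `i = 0`). -/
theorem Singer.ConeA.cone_inequality {A : Type u} [Group A] (C : Bool → Subgroup A)
    (RA : Singer.FinRes A) (RC : ∀ b, Singer.FinRes (C b)) (RB : Singer.FinRes (C true ⊓ C false : Subgroup A))
    {j k : ℕ} (hj : 1 ≤ j) (hk : j ≤ k) (h1 : j = 1 → Function.Injective (Singer.ConeA.edge C))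
    (Rj : Singer.FinRes (Singer.ConeA.Ring C j)) (Rk : Singer.FinRes (Singer.ConeA.Ring C k)) :
    (j : ℝ) * Rk.betti 0 ≤ k * Rj.betti 0 ∧
      ∀ i, (j : ℝ) * Rk.betti (i + 1) ≤ k * Rj.betti (i + 1) + (k - j) * RB.betti i := by
  have hE : Singer.ConeA.EndInj C j := by
    rcases hj.eq_or_lt with h | h
    · rw [← h]
      exact Singer.ConeA.endInj_one (h1 h.symm)
    · exact Singer.ConeA.endInj_of_two_le h
  have key := Singer.ConeA.cone_ineq (Singer.ConeA.finRes_nonempty RA) (fun b => Singer.ConeA.finRes_nonempty (RC b))
    (Singer.ConeA.finRes_nonempty RB) hj hk hE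
  refine ⟨?_, fun i => ?_⟩
  · have h2 := key 0
    rw [Singer.ConeA.bt_finRes, Singer.ConeA.bt_finRes]
    have h3 : Singer.ConeA.bp (Singer.ConeA.co C) 0 = 0 := rfl
    rw [h3, mul_zero, add_zero] at h2
    exact h2
  · have h2 := key (i + 1)
    rw [Singer.ConeA.bt_finRes, Singer.ConeA.bt_finRes, Singer.ConeA.bt_finRes]
    exact h2
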